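import Pool.Agent.K4H1.IM.Inv

/-!
# Complex conjugations, real and complex places, CM fields
-/

set_option autoImplicit false

namespace Pool.Agent.K4H1.IM

open Subgroup Module IntermediateField Pool.Agent.Q60.MU NumberField
open scoped Pointwise

/-- `c` is the complex conjugation of the field of algebraic numbers for the embedding `φ` into the
field of complex numbers -/
def IsConjOf (φ : Qb →+* ℂ) (c : Gal(Qb/ℚ)) : Prop := ∀ x, φ (c x) = (starRingEnd ℂ) (φ x)

theorem differ (φ φ' : Qb →+* ℂ) : ∃ h : Gal(Qb/ℚ), ∀ x, φ (h x) = φ' x := by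
  have hN : Normal ℚ Qb := isGalois_Qb.to_normal
  let ψ : Qb →ₐ[ℚ] ℂ := φ'.toRatAlgHom
  let : Algebra Qb ℂ := φ.toAlgebra
  have : IsScalarTower ℚ Qb ℂ :=
    IsScalarTower.of_algebraMap_eq' (Subsingleton.elim _ _)
  refine ⟨AlgHom.restrictNormal' ψ Qb, fun x => ?_⟩
  exact AlgHom.restrictNormal_commutes ψ Qb x

theorem exists_conj (φ : Qb →+* ℂ) : ∃ c, IsConjOf φ c :=
  differ φ ((starRingEnd ℂ).comp φ)

theorem conj_sq {φ : Qb →+* ℂ} {c : Gal(Qb/ℚ)} (h : IsConjOf φ c) (x : Qb) : c (c x) = x :=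
  φ.injective (by rw [h, h, Complex.conj_conj])

/-- every embedding of a subfield is the restriction of `φ ∘ g` -/
theorem embed (φ : Qb →+* ℂ) (E : IntermediateField ℚ Qb) (ψ : E →+* ℂ) :
    ∃ g : Gal(Qb/ℚ), ∀ x : E, ψ x = φ (g x) := by
  let : Algebra E ℂ := ψ.toAlgebra
  have h1 : Algebra.IsAlgebraic E Qb := Algebra.IsAlgebraic.tower_top (K := ℚ) E
  let Φ : Qb →ₐ[E] ℂ := IsAlgClosed.lift
  obtain ⟨g, hg⟩ := differ φ Φ.toRingHom
  refine ⟨g, fun x => ?_⟩
  rw [hg]
  exact (Φ.commutes x).symm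

theorem exists_real {φ : Qb →+* ℂ} {c : Gal(Qb/ℚ)} (h : IsConjOf φ c)
    {E : IntermediateField ℚ Qb} [NumberField E] {g : Gal(Qb/ℚ)} (hg : ∀ x ∈ E, c (g x) = g x) :
    ∃ w : InfinitePlace E, w.IsReal := by
  refine ⟨InfinitePlace.mk ((φ.comp (g : Qb →+* Qb)).comp (algebraMap E Qb)), ?_⟩
  rw [InfinitePlace.isReal_mk_iff, ComplexEmbedding.isReal_iff]
  ext x
  show (starRingEnd ℂ) (φ (g x)) = φ (g x)
  rw [← h, hg x x.2]

theorem exists_complex {φ : Qb →+* ℂ} {c : Gal(Qb/ℚ)} (h : IsConjOf φ c)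
    {E : IntermediateField ℚ Qb} [NumberField E] {g : Gal(Qb/ℚ)} {x : Qb} (hx : x ∈ E)
    (hg : c (g x) ≠ g x) : ∃ w : InfinitePlace E, w.IsComplex := by
  refine ⟨InfinitePlace.mk ((φ.comp (g : Qb →+* Qb)).comp (algebraMap E Qb)), ?_⟩
  rw [InfinitePlace.isComplex_mk_iff, ComplexEmbedding.isReal_iff]
  intro h1
  have h2 : (starRingEnd ℂ) (φ (g x)) = φ (g x) := RingHom.congr_fun h1 (⟨x, hx⟩ : E)
  rw [← h] at h2
  exact hg (φ.injective h2)

/-- a field on which the complex conjugations agree is totally real or a CM field -/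
theorem real_or_cm {φ : Qb →+* ℂ} {c : Gal(Qb/ℚ)} (h : IsConjOf φ c)
    {E : IntermediateField ℚ Qb} [NumberField E] (h1 : ∀ x ∈ E, c x ∈ E)
    (h2 : ∀ g : Gal(Qb/ℚ), ∀ x ∈ E, c (g x) = g (c x)) : IsTotallyReal E ∨ IsCMField E := by
  by_cases h3 : ∀ x ∈ E, c x = x
  · left
    refine ⟨fun w => ?_⟩
    rw [InfinitePlace.isReal_iff, ComplexEmbedding.isReal_iff]
    obtain ⟨g, hg⟩ := embed φ E w.embedding
    ext x
    show (starRingEnd ℂ) (w.embedding x) = w.embedding x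
    rw [hg, ← h, h2 g x x.2, h3 x x.2]
  · right
    push Not at h3
    obtain ⟨x₀, hx₀, h3⟩ := h3
    have hcx : IsTotallyComplex E := by
      refine ⟨fun w => ?_⟩
      rw [InfinitePlace.isComplex_iff, ComplexEmbedding.isReal_iff]
      intro h4
      obtain ⟨g, hg⟩ := embed φ E w.embedding
      have h5 : (starRingEnd ℂ) (w.embedding ⟨x₀, hx₀⟩) = w.embedding ⟨x₀, hx₀⟩ :=
        RingHom.congr_fun h4 _
      rw [hg, ← h, h2 g x₀ hx₀] at h5
      exact h3 (g.injective (φ.injective h5))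
    let f : E →ₐ[ℚ] E := (c.toAlgHom.comp E.val).codRestrict E.toSubalgebra fun x => h1 x x.2
    have hf : ∀ x : E, ((f x : E) : Qb) = c x := fun x => rfl
    let σ : E ≃ₐ[ℚ] E := AlgEquiv.ofAlgHom f f
      (by ext x; exact conj_sq h x) (by ext x; exact conj_sq h x)
    have hσ : ∀ x : E, ((σ x : E) : Qb) = c x := fun x => rfl
    have hσ2 : σ ^ 2 = 1 := by
      ext x
      rw [pow_two, AlgEquiv.mul_apply, hσ, hσ, conj_sq h]
      rfl
    have hσ1 : σ ≠ 1 := by
      intro h4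
      apply h3
      have h5 := hσ ⟨x₀, hx₀⟩
      rw [h4] at h5
      exact h5.symm
    have hord : orderOf σ = 2 := orderOf_eq_prime hσ2 hσ1
    have hψ : ∀ (ψ : E →+* ℂ) (x : E), (starRingEnd ℂ) (ψ x) = ψ (σ x) := by
      intro ψ x
      obtain ⟨g, hg⟩ := embed φ E ψ
      rw [hg, hg, ← h, h2 g x x.2, hσ]
    let L : IntermediateField ℚ E := fixedField (zpowers σ)
    have hL : ∀ x : L, σ x = x := by
      intro x
      exact (mem_fixedField_iff _ _).1 x.2 σ (mem_zpowers σ)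
    have hreal : IsTotallyReal L := ⟨fun w => by
      obtain ⟨W, rfl⟩ := w.comap_surjective (K := E)
      dsimp only
      rw [← InfinitePlace.mk_embedding W, InfinitePlace.comap_mk, InfinitePlace.isReal_mk_iff,
        ComplexEmbedding.isReal_iff]
      ext x
      show (starRingEnd ℂ) (W.embedding x) = W.embedding x
      rw [hψ, hL]⟩
    have hquad : Algebra.IsQuadraticExtension L E := ⟨by
      have h4 := IntermediateField.finrank_fixedField_eq_card (zpowers σ)
      rw [Nat.card_zpowers, hord] at h4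
      exact h4⟩
    exact IsCMField.ofCMExtension L E

end Pool.Agent.K4H1.IM
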