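import Pool.Agent.K4H1.IM.Red

/-!
# Counting fixed vectors in orbits
-/

set_option autoImplicit false

namespace Pool.Agent.K4H1.IM

open Subgroup Module IntermediateField Pool.Agent.Q60.MU NumberField
open scoped Pointwise

section count

variable {p : ℕ} [hp : Fact p.Prime] {S : Type} [AddCommGroup S] [Module (ZMod p) S]
  (τ : Representation (ZMod p) Gal(Qb/ℚ) S)

/-- the vectors in the orbit of `v` which are fixed by `D` -/
def orbFix (D : Subgroup Gal(Qb/ℚ)) (v : S) : Set S := {w | (∃ g, w = τ g v) ∧ w ∈ fixedBy τ D}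

theorem orb_symm {v w : S} (h : ∃ g, w = τ g v) : ∃ g, v = τ g w := by
  obtain ⟨g, rfl⟩ := h
  refine ⟨g⁻¹, ?_⟩
  rw [← Module.End.mul_apply, ← map_mul, inv_mul_cancel, map_one]
  rfl

theorem orb_trans {v w u : S} (h : ∃ g, w = τ g v) (h' : ∃ g, u = τ g w) : ∃ g, u = τ g v := by
  obtain ⟨g, rfl⟩ := h
  obtain ⟨g', rfl⟩ := h'
  refine ⟨g' * g, ?_⟩
  rw [← Module.End.mul_apply, ← map_mul]

theorem exists_orb [Module.Finite (ZMod p) S] (D : Subgroup Gal(Qb/ℚ))
    (h : ∃ v, v ≠ 0 ∧ v ∈ fixedBy τ D) :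
    ∃ v, v ≠ 0 ∧ v ∈ fixedBy τ D ∧ ¬ p ∣ (orbFix τ D v).ncard := by
  classical
  by_contra hcon
  push Not at hcon
  have hfin : Finite S := Module.finite_of_finite (ZMod p)
  have : Fintype S := Fintype.ofFinite S
  obtain ⟨v₀, hv₀, hv₀'⟩ := h
  have hnt : Nontrivial (fixedBy τ D) := ⟨⟨v₀, hv₀'⟩, 0, fun h => hv₀ (congrArg Subtype.val h)⟩
  have hcard : p ∣ Nat.card (fixedBy τ D) := by
    have h1 := Module.natCard_eq_pow_finrank (K := ZMod p) (V := fixedBy τ D)
    rw [Nat.card_zmod] at h1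
    rw [h1]
    exact dvd_pow_self p (finrank_pos (R := ZMod p) (M := fixedBy τ D)).ne'
  obtain ⟨Ω, hΩ⟩ : ∃ Ω : Finset S, ∀ w, w ∈ Ω ↔ w ≠ 0 ∧ w ∈ fixedBy τ D :=
    ⟨Finset.univ.filter fun w => w ≠ 0 ∧ w ∈ fixedBy τ D, fun w => by simp⟩
  have hΩc : Ω.card + 1 = Nat.card (fixedBy τ D) := by
    have h1 : Ω = (Finset.univ.filter fun w => w ∈ fixedBy τ D).erase 0 := by
      ext w
      rw [hΩ, Finset.mem_erase, Finset.mem_filter]
      simp
    have h2 : (0 : S) ∈ Finset.univ.filter fun w => w ∈ fixedBy τ D := by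
      rw [Finset.mem_filter]
      exact ⟨Finset.mem_univ _, zero_mem _⟩
    rw [h1, Finset.card_erase_add_one h2, Nat.card_eq_fintype_card]
    exact (Fintype.card_subtype _).symm
  have hdvd : p ∣ Ω.card := by
    rw [Finset.card_eq_sum_card_image (fun w => Finset.univ.filter fun u => ∃ g, u = τ g w) Ω]
    refine Finset.dvd_sum fun b hb => ?_
    obtain ⟨w, hw, rfl⟩ := Finset.mem_image.1 hb
    rw [hΩ] at hw
    refine (hcon w hw.1 hw.2).trans (dvd_of_eq ?_)
    rw [← Set.ncard_coe_finset]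
    congr 1
    ext u
    rw [Finset.mem_coe, Finset.mem_filter, hΩ]
    constructor
    · rintro ⟨h1, h2⟩
      refine ⟨⟨?_, h2⟩, ?_⟩
      · rintro rfl
        obtain ⟨g, hg⟩ := orb_symm τ h1
        rw [map_zero] at hg
        exact hw.1 hg
      · ext z
        rw [Finset.mem_filter, Finset.mem_filter]
        exact ⟨fun h3 => ⟨h3.1, orb_trans τ h1 h3.2⟩,
          fun h3 => ⟨h3.1, orb_trans τ (orb_symm τ h1) h3.2⟩⟩
    · rintro ⟨⟨h1, h2⟩, h3⟩
      refine ⟨?_, h2⟩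
      have h4 : u ∈ Finset.univ.filter fun z => ∃ g, z = τ g u := by
        rw [Finset.mem_filter]
        exact ⟨Finset.mem_univ _, 1, by rw [map_one]; rfl⟩
      rw [h3, Finset.mem_filter] at h4
      exact h4.2
  have h1 : p ∣ 1 := (Nat.dvd_add_right hdvd).1 (hΩc ▸ hcard)
  exact hp.1.one_lt.ne' (Nat.dvd_one.1 h1)

/-- every embedding is the restriction of an automorphism -/
theorem exists_ext (E : IntermediateField ℚ Qb) (ψ : E →ₐ[ℚ] Qb) :
    ∃ g : Gal(Qb/ℚ), ∀ x : E, ψ x = g x := by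
  have hcl : IsAlgClosed ℂ := inferInstance
  let φ : Qb →+* ℂ := (IsAlgClosed.lift : Qb →ₐ[ℚ] ℂ).toRingHom
  obtain ⟨g, hg⟩ := embed φ E (φ.comp ψ.toRingHom)
  exact ⟨g, fun x => φ.injective (hg x)⟩

theorem embFix_eq (D : Subgroup Gal(Qb/ℚ)) {v : S} {E : IntermediateField ℚ Qb}
    (hE : E.fixingSubgroup = stab τ v) : embFix D E = (orbFix τ D v).ncard := by
  have hmemE : ∀ g : Gal(Qb/ℚ), τ g v = v ↔ ∀ x : E, g x = x := by
    intro g
    rw [← mem_stab, ← hE, IntermediateField.mem_fixingSubgroup_iff]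
    exact ⟨fun h x => h x x.2, fun h x hx => h ⟨x, hx⟩⟩
  have heq : ∀ g g' : Gal(Qb/ℚ), τ g v = τ g' v ↔ ∀ x : E, g x = g' x := by
    intro g g'
    have h1 : τ g v = τ g' v ↔ τ (g'⁻¹ * g) v = v := by
      rw [map_mul, Module.End.mul_apply]
      constructor
      · intro h
        rw [h, ← Module.End.mul_apply, ← map_mul, inv_mul_cancel, map_one]
        rfl
      · intro h
        have h2 := congrArg (τ g') h
        rw [← Module.End.mul_apply, ← map_mul, mul_inv_cancel, map_one] at h2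
        exact h2
    rw [h1, hmemE]
    refine forall_congr' fun x => ?_
    rw [AlgEquiv.mul_apply]
    constructor
    · intro h
      have h2 := congrArg g' h
      rwa [← AlgEquiv.mul_apply, mul_inv_cancel, AlgEquiv.one_apply] at h2
    · intro h
      rw [h, ← AlgEquiv.mul_apply, inv_mul_cancel, AlgEquiv.one_apply]
  choose l hl using exists_ext E
  have hD : ∀ g : Gal(Qb/ℚ), (∀ d ∈ D, ∀ x : E, d (g x) = g x) ↔ τ g v ∈ fixedBy τ D := by
    intro g
    rw [mem_fixedBy]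
    refine forall_congr' fun d => forall_congr' fun hd => ?_
    rw [← Module.End.mul_apply, ← map_mul, heq]
    exact Iff.rfl
  rw [embFix, ← Nat.card_coe_set_eq]
  refine Nat.card_congr (Equiv.ofBijective
    (fun ψ => ⟨τ (l ψ.1) v, ⟨l ψ.1, rfl⟩, ?_⟩) ⟨?_, ?_⟩)
  · rw [← hD]
    intro d hd x
    rw [← hl]
    exact ψ.2 d hd x
  · intro ψ ψ' h
    have h1 : τ (l ψ.1) v = τ (l ψ'.1) v := congrArg Subtype.val h
    rw [heq] at h1
    apply Subtype.ext
    ext x
    rw [hl, h1, hl]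
  · rintro ⟨_, ⟨g, rfl⟩, hg⟩
    rw [← hD] at hg
    have h1 : ∀ x : E, l ((g.toAlgHom).comp E.val) x = g x := fun x => (hl _ x).symm
    refine ⟨⟨g.toAlgHom.comp E.val, fun d hd x => hg d hd x⟩, ?_⟩
    apply Subtype.ext
    exact (heq _ _).2 h1

end count

/-- the real embeddings -/
theorem embFix_conj {φ : Qb →+* ℂ} {c : Gal(Qb/ℚ)} (hc : IsConjOf φ c)
    (E : IntermediateField ℚ Qb) [NumberField E] :
    embFix (zpowers c) E = InfinitePlace.nrRealPlaces E := by
  have h1 : ∀ y : Qb, (∀ d ∈ zpowers c, d y = y) ↔ c y = y := by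
    intro y
    refine ⟨fun h => h c (mem_zpowers c), fun h d hd => ?_⟩
    have h1 : zpowers c ≤ MulAction.stabilizer Gal(Qb/ℚ) y := by
      rw [zpowers_le]
      exact h
    exact h1 hd
  have h0 : Nat.card { ψ : E →+* ℂ // ComplexEmbedding.IsReal ψ } = InfinitePlace.nrRealPlaces E := by
    classical
    rw [← InfinitePlace.card_real_embeddings]
    exact @Nat.card_eq_fintype_card _ _
  rw [embFix, ← h0]
  refine Nat.card_congr (Equiv.ofBijective
    (fun ψ => ⟨φ.comp ψ.1.toRingHom, ?_⟩) ⟨?_, ?_⟩)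
  · rw [ComplexEmbedding.isReal_iff]
    ext x
    show (starRingEnd ℂ) (φ (ψ.1 x)) = φ (ψ.1 x)
    rw [← hc, ψ.2 c (mem_zpowers c) x]
  · intro ψ ψ' h
    apply Subtype.ext
    ext x
    have h2 := RingHom.congr_fun (congrArg Subtype.val h) x
    exact φ.injective h2
  · rintro ⟨ψ, hψ⟩
    obtain ⟨g, hg⟩ := embed φ E ψ
    rw [ComplexEmbedding.isReal_iff] at hψ
    refine ⟨⟨g.toAlgHom.comp E.val, fun d hd x => ?_⟩, ?_⟩
    · refine (h1 _).2 (φ.injective ?_) d hd
      show φ (c (g x)) = φ (g x)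
      rw [hc, ← hg]
      exact RingHom.congr_fun hψ x
    · apply Subtype.ext
      ext x
      exact (hg x).symm

end Pool.Agent.K4H1.IM
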