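import Pool.Agent.K4H24.IW.Dens

/-!
# The primes in the cyclotomic `ℤ_p`-extension are finitely decomposed
-/

set_option autoImplicit false

namespace Pool.Agent.K4H1.IM

open Subgroup Module IntermediateField Pool.Agent.Q60.MU Pool.Agent.K4H24.IW NumberField Ideal
open scoped Pointwise commutatorElement

/-- the order of `ℓ` modulo `p ^ (m + 1)` -/
theorem order_bound {p ℓ : ℕ} (hp : p.Prime) (hp2 : p ≠ 2) (hℓ : ℓ.Prime) (h : ℓ ≠ p) :
    ∃ v : ℕ, ∀ m d : ℕ, d ≠ 0 → p ^ (m + 1) ∣ ℓ ^ d - 1 → p ^ (m + 1) ≤ p ^ v * d := by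
  have : Fact p.Prime := ⟨hp⟩
  have hodd : Odd p := hp.odd_of_ne_two hp2
  have hcop : Nat.Coprime ℓ p := (Nat.coprime_primes hℓ hp).2 h
  have hpd : p ∣ ℓ ^ (p - 1) - 1 := by
    have h1 := Nat.ModEq.pow_totient hcop
    rw [Nat.totient_prime hp] at h1
    exact (Nat.modEq_iff_dvd' (Nat.one_le_pow _ _ hℓ.pos)).1 h1.symm
  refine ⟨padicValNat p (ℓ ^ (p - 1) - 1), fun m d hd hdiv => ?_⟩
  have hl1 : 1 < ℓ ^ (p - 1) := Nat.one_lt_pow (by have := hp.two_le; omega) hℓ.one_lt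
  have h1 : p ^ (m + 1) ∣ (ℓ ^ (p - 1)) ^ d - 1 := by
    rw [← pow_mul, mul_comm, pow_mul]
    refine hdiv.trans ?_
    have := Nat.sub_dvd_pow_sub_pow (ℓ ^ d) 1 (p - 1)
    rwa [one_pow] at this
  have h2 := padicValNat.pow_sub_pow (p := p) (x := ℓ ^ (p - 1)) (y := 1) hodd hl1 hpd (by
    intro h3
    have h4 := hp.dvd_of_dvd_pow h3
    rw [Nat.prime_dvd_prime_iff_eq hp hℓ] at h4
    exact h h4.symm) hd
  rw [one_pow] at h2
  have h3 : (ℓ ^ (p - 1)) ^ d - 1 ≠ 0 := by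
    have : 1 < (ℓ ^ (p - 1)) ^ d := Nat.one_lt_pow hd hl1
    omega
  have h4 : m + 1 ≤ padicValNat p ((ℓ ^ (p - 1)) ^ d - 1) :=
    (padicValNat_dvd_iff_le h3).1 h1
  rw [h2] at h4
  calc p ^ (m + 1) ≤ p ^ (padicValNat p (ℓ ^ (p - 1) - 1) + padicValNat p d) :=
        Nat.pow_le_pow_right hp.pos h4
    _ = p ^ padicValNat p (ℓ ^ (p - 1) - 1) * p ^ padicValNat p d := pow_add _ _ _
    _ ≤ p ^ padicValNat p (ℓ ^ (p - 1) - 1) * d :=
        Nat.mul_le_mul_left _ (Nat.le_of_dvd (Nat.pos_of_ne_zero hd) pow_padicValNat_dvd)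

/-- the number of primes above `ℓ` in the field of the `p ^ (m + 1)`-th roots of unity -/
theorem primes_bound {p ℓ : ℕ} [hp : Fact p.Prime] (hp2 : p ≠ 2) (hℓ : ℓ.Prime) :
    ∃ t : ℕ, ∀ m : ℕ, ∀ (K : Type) [Field K] [NumberField K]
      [IsCyclotomicExtension {p ^ (m + 1)} ℚ K],
      (primesOver (span {(ℓ : ℤ)}) (𝓞 K)).ncard ≤ t := by
  have : Fact ℓ.Prime := ⟨hℓ⟩
  by_cases h : ℓ = p
  · subst h
    refine ⟨1, fun m K _ _ _ => ?_⟩
    exact (IsCyclotomicExtension.Rat.ncard_primesOver_of_prime_pow ℓ m K).le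
  · obtain ⟨v, hv⟩ := order_bound hp.1 hp2 hℓ h
    refine ⟨p ^ v * p, fun m K _ _ _ => ?_⟩
    have hndvd : ¬ ℓ ∣ p ^ (m + 1) := by
      intro h1
      have h2 := hℓ.dvd_of_dvd_pow h1
      rw [Nat.prime_dvd_prime_iff_eq hℓ hp.1] at h2
      exact h h2
    have hne : NeZero (p ^ (m + 1)) := ⟨pow_ne_zero _ hp.1.ne_zero⟩
    have hG : IsGalois ℚ K := IsCyclotomicExtension.isGalois {p ^ (m + 1)} ℚ K
    have h_main := ncard_primesOver_mul_ramificationIdxIn_mul_inertiaDegIn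
      (span {(ℓ : ℤ)}) (𝓞 K) Gal(K/ℚ)
    rw [IsCyclotomicExtension.Rat.inertiaDegIn_eq_of_not_dvd ℓ K hndvd,
      IsCyclotomicExtension.Rat.ramificationIdxIn_eq_of_not_dvd ℓ K hndvd, one_mul,
      IsGaloisGroup.card_eq_finrank Gal(K/ℚ) ℚ K,
      IsCyclotomicExtension.finrank K (Polynomial.cyclotomic.irreducible_rat hne.1.bot_lt)] at h_main
    set d := orderOf (ℓ : ZMod (p ^ (m + 1))) with hd
    have hunit : IsUnit (ℓ : ZMod (p ^ (m + 1))) := by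
      rw [ZMod.isUnit_iff_coprime]
      exact (Nat.Coprime.pow_right _ ((Nat.coprime_primes hℓ hp.1).2 h))
    have hd0 : d ≠ 0 := by
      intro h0
      rw [h0, mul_zero] at h_main
      have := Nat.totient_pos.2 (Nat.pos_of_ne_zero hne.1)
      omega
    have hdiv : p ^ (m + 1) ∣ ℓ ^ d - 1 := by
      have h1 : (ℓ : ZMod (p ^ (m + 1))) ^ d = 1 := pow_orderOf_eq_one _
      rw [← ZMod.natCast_eq_zero_iff, Nat.cast_sub (Nat.one_le_pow _ _ hℓ.pos), Nat.cast_pow, h1,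
        Nat.cast_one, sub_self]
    have h2 := hv m d hd0 hdiv
    have h3 : Nat.totient (p ^ (m + 1)) ≤ p ^ (m + 1) := Nat.totient_le _
    rw [← h_main] at h3
    have h4 := h3.trans h2
    have h5 := Nat.le_of_mul_le_mul_right h4 (Nat.pos_of_ne_zero hd0)
    exact h5.trans (Nat.le_mul_of_pos_right _ hp.1.pos)

end Pool.Agent.K4H1.IM
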