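import Pool.Agent.K4H1.IM.Dec
import Pool.Agent.Y219.PC.CHD
import Pool.Agent.Y536.PS.CONJ

set_option autoImplicit false

namespace Pool.Agent.K4H1.IM

open Subgroup Module IntermediateField Pool.Agent.Q60.MU Pool.Agent.K4H24.IW NumberField Ideal
open scoped Pointwise commutatorElement

/-- two valuation rings with the same restriction are conjugate -/
theorem conj_of_comap (K : IntermediateField ℚ Qb) {A B : ValuationSubring Qb}
    (h : A.comap (algebraMap K Qb) = B.comap (algebraMap K Qb)) :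
    ∃ σ ∈ K.fixingSubgroup, A = σ • B := by
  have hcl : IsAlgClosed Qb := AlgebraicClosure.isAlgClosed ℚ
  have hn : Normal K Qb := normal_iff.2 fun x => by
    have h1 : IsIntegral K x := ((isAlg_Qb.isAlgebraic x).isIntegral).tower_top
    exact ⟨h1, IsAlgClosed.splits _⟩
  obtain ⟨γ, hγ⟩ := Pool.Agent.Y536.PS.conj K Qb B A h.symm
  have hmem : (γ.restrictScalars ℚ : Gal(Qb/ℚ)) ∈ K.fixingSubgroup := by
    rw [IntermediateField.mem_fixingSubgroup_iff]
    intro x hx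
    exact γ.commutes ⟨x, hx⟩
  refine ⟨(γ.restrictScalars ℚ : Gal(Qb/ℚ))⁻¹, inv_mem hmem, ?_⟩
  ext z
  rw [ValuationSubring.mem_pointwise_smul_iff_inv_smul_mem, inv_inv, hγ z]
  exact Iff.rfl

theorem centre_prime (K : IntermediateField ℚ Qb) [NumberField K] {ℓ : ℕ} (hℓ : ℓ.Prime)
    {A : ValuationSubring Qb} (hA : (ℓ : Qb) ∈ A.nonunits) :
    ∃ P ∈ primesOver (span {(ℓ : ℤ)}) (𝓞 K), ∀ x : 𝓞 K, x ∈ P ↔ ((x : K) : Qb) ∈ A.nonunits := by
  have hint : ∀ x : 𝓞 K, ((x : K) : Qb) ∈ A := fun x => integral_mem A (x.2.map K.val.toRingHom.toIntAlgHom)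
  let f : 𝓞 K →+* A := (K.val.toRingHom.comp (algebraMap (𝓞 K) K)).codRestrict A.toSubring hint
  have hf : ∀ x : 𝓞 K, ((f x : A) : Qb) = ((x : K) : Qb) := fun x => rfl
  have hmem : ∀ x : 𝓞 K, x ∈ (IsLocalRing.maximalIdeal A).comap f ↔ ((x : K) : Qb) ∈ A.nonunits := by
    intro x
    rw [Ideal.mem_comap, ← hf, ValuationSubring.coe_mem_nonunits_iff]
  refine ⟨(IsLocalRing.maximalIdeal A).comap f, ⟨Ideal.comap_isPrime _ _, ⟨?_⟩⟩, hmem⟩
  have hpr : (span {(ℓ : ℤ)}).IsMaximal := by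
    have : (span {(ℓ : ℤ)}).IsPrime := (span_singleton_prime (by exact_mod_cast hℓ.ne_zero)).2
      (Nat.prime_iff_prime_int.1 hℓ)
    refine this.isMaximal ?_
    rw [Ne, span_singleton_eq_bot]
    exact_mod_cast hℓ.ne_zero
  refine hpr.eq_of_le (Ideal.comap_isPrime _ _).ne_top ?_
  rw [span_singleton_le_iff_mem, Ideal.under, Ideal.mem_comap, hmem]
  simpa using hA

/-- the primes in the cyclotomic tower are finitely decomposed -/
theorem fin_dec {p : ℕ} [hp : Fact p.Prime] (hp2 : p ≠ 2) {R : ℕ → IntermediateField ℚ Qb}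
    (hR : IsCycTower p R) : FinDec R := by
  classical
  intro ℓ hℓ
  obtain ⟨t, ht⟩ := primes_bound hp2 hℓ
  refine ⟨t, fun m => ?_⟩
  have hk : p ^ (m + 1) ≠ 0 := pow_ne_zero _ hp.1.ne_zero
  have : NeZero (p ^ (m + 1)) := ⟨hk⟩
  have hcl : IsAlgClosed Qb := AlgebraicClosure.isAlgClosed ℚ
  have : NeZero ((p ^ (m + 1) : ℕ) : Qb) := ⟨by exact_mod_cast hk⟩
  obtain ⟨ζ, hζ⟩ := HasEnoughRootsOfUnity.exists_primitiveRoot Qb (p ^ (m + 1))
  have hK : IsCyclotomicExtension {p ^ (m + 1)} ℚ (adjoin ℚ {ζ}) :=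
    hζ.intermediateField_adjoin_isCyclotomicExtension ℚ
  generalize hKdef : adjoin ℚ {ζ} = K at hK
  have hRK : R m ≤ K := by
    refine (hR m).2.trans ?_
    rw [adjoin_le_iff]
    intro x hx
    obtain ⟨i, -, rfl⟩ := hζ.eq_pow_of_pow_eq_one hx
    exact pow_mem (by rw [← hKdef]; exact mem_adjoin_simple_self ℚ ζ) i
  have hnf : NumberField K := IsCyclotomicExtension.numberField {p ^ (m + 1)} ℚ K
  have ht' := ht m K
  have hfin : (primesOver (span {(ℓ : ℤ)}) (𝓞 K)).Finite := by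
    have hpr : (span {(ℓ : ℤ)}).IsMaximal := by
      have : (span {(ℓ : ℤ)}).IsPrime := (span_singleton_prime (by exact_mod_cast hℓ.ne_zero)).2
        (Nat.prime_iff_prime_int.1 hℓ)
      refine this.isMaximal ?_
      rw [Ne, span_singleton_eq_bot]
      exact_mod_cast hℓ.ne_zero
    exact IsDedekindDomain.primesOver_finite _ _
  -- the representatives
  let g : Ideal (𝓞 K) → ValuationSubring Qb := fun P =>
    if h : ∃ A : ValuationSubring Qb, (ℓ : Qb) ∈ A.nonunits ∧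
      ∀ x : 𝓞 K, x ∈ P ↔ ((x : K) : Qb) ∈ A.nonunits then h.choose else ⊤
  refine ⟨hfin.toFinset.image g, ?_, fun A hA => ?_⟩
  · refine Finset.card_image_le.trans ?_
    rwa [← Set.ncard_eq_toFinset_card _ hfin]
  · obtain ⟨P, hP, hPA⟩ := centre_prime K hℓ hA
    have h : ∃ A : ValuationSubring Qb, (ℓ : Qb) ∈ A.nonunits ∧
      ∀ x : 𝓞 K, x ∈ P ↔ ((x : K) : Qb) ∈ A.nonunits := ⟨A, hA, hPA⟩
    have hg : g P = h.choose := dif_pos h
    obtain ⟨hB, hPB⟩ := h.choose_spec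
    rw [← hg] at hB hPB
    refine ⟨g P, Finset.mem_image_of_mem _ (hfin.mem_toFinset.2 hP), ?_⟩
    have hPp : P.IsPrime := hP.1
    have hP0 : P ≠ ⊥ := by
      rintro rfl
      have h1 : ((ℓ : 𝓞 K) : 𝓞 K) ∈ (⊥ : Ideal (𝓞 K)) := by
        rw [hPA]
        simpa using hA
      rw [Ideal.mem_bot] at h1
      exact hℓ.ne_zero (by exact_mod_cast h1)
    obtain ⟨σ, hσ, h2⟩ := conj_of_comap K (A := A) (B := g P) (by
      refine Pool.Agent.Y219.PC.unique (O := 𝓞 K) (L := K) P hP0 _ _ ?_ ?_ ?_ ?_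
      · exact fun x => integral_mem A (x.2.map K.val.toRingHom.toIntAlgHom)
      · exact fun x => integral_mem _ (x.2.map K.val.toRingHom.toIntAlgHom)
      · intro x
        rw [Pool.Agent.Y219.PC.non_comap, hPA]
        exact Iff.rfl
      · intro x
        rw [Pool.Agent.Y219.PC.non_comap, hPB]
        exact Iff.rfl)
    exact ⟨σ, fixingSubgroup_le hRK hσ, h2⟩

end Pool.Agent.K4H1.IM
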