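import Pool.Agent.Q60.MU.Explicit
import Pool.Agent.K4H24.IW.Cyc
import Mathlib.NumberTheory.NumberField.CMField

/-!
# Definitions for the reduction of the conjecture `μ = 0`
-/

set_option autoImplicit false

namespace Pool.Agent.K4H1.IM

open Subgroup Module IntermediateField Pool.Agent.Q60.MU Pool.Agent.K4H24.IW NumberField
open scoped Pointwise commutatorElement

/-- the field of the elements of `N` fixed by `c` -/
noncomputable def fixedPart (c : Gal(Qb/ℚ)) (N : IntermediateField ℚ Qb) :
    IntermediateField ℚ Qb := N ⊓ fixedField (zpowers c)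

/-- the field of the elements of `N` fixed by all commutators of `c` with elements of `Gal(Qb/F)`:
if `N` is Galois over `F` and `c ∈ Gal(Qb/F)`, this is the largest Galois extension of `F` in `N` on
which `c` is central -/
noncomputable def centralPart (F : IntermediateField ℚ Qb) (c : Gal(Qb/ℚ))
    (N : IntermediateField ℚ Qb) : IntermediateField ℚ Qb :=
  N ⊓ fixedField (closure {x | ∃ g ∈ F.fixingSubgroup, x = ⁅g, c⁆})

/-- Every abelian subgroup of `G` is cyclic. -/
def AbelianCyclic (G : Type) [Group G] : Prop :=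
  ∀ B : Subgroup G, (∀ x ∈ B, ∀ y ∈ B, x * y = y * x) → IsCyclic B

/-- The order of the automorphism group of `E` is prime to `p` and every abelian subgroup of the
automorphism group is cyclic. -/
def FewAut (p : ℕ) (E : IntermediateField ℚ Qb) : Prop :=
  ¬ p ∣ Nat.card Gal(E/ℚ) ∧ AbelianCyclic Gal(E/ℚ)

/-- the number of embeddings of `E` whose image consists of elements fixed by `D` -/
noncomputable def embFix (D : Subgroup Gal(Qb/ℚ)) (E : IntermediateField ℚ Qb) : ℕ :=
  Nat.card {ψ : E →ₐ[ℚ] Qb // ∀ d ∈ D, ∀ x, d (ψ x) = ψ x}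

/-- the number of real places (real embeddings) of `E` -/
noncomputable def realPlaces (E : IntermediateField ℚ Qb) : ℕ :=
  Nat.card {w : InfinitePlace E // w.IsReal}

/-- The field `E` is a CM field of degree prime to `p`, with few automorphisms. -/
def CMGood (p : ℕ) (E : IntermediateField ℚ Qb) : Prop :=
  IsCMField E ∧ ¬ p ∣ finrank ℚ E ∧ FewAut p E

/-- The number of embeddings of `E` into `Qb` whose image is fixed by `D` is prime to `p`, or there
is no such embedding and the degree of `E` is prime to `p` and `E` has few automorphisms. -/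
def EmbGood (p : ℕ) (D : Subgroup Gal(Qb/ℚ)) (E : IntermediateField ℚ Qb) : Prop :=
  ¬ p ∣ embFix D E ∨ (embFix D E = 0 ∧ ¬ p ∣ finrank ℚ E ∧ FewAut p E)

/-- `M` consists of the elements of `N` whose image under `φ` is real. -/
def IsRealPart (φ : Qb →+* ℂ) (N M : IntermediateField ℚ Qb) : Prop :=
  ∀ x, x ∈ M ↔ x ∈ N ∧ (φ x).im = 0

/-- `μ = 0` for all number fields with the property `P` -/
def MuFor (p : ℕ) (R : ℕ → IntermediateField ℚ Qb) (P : IntermediateField ℚ Qb → Prop) : Prop :=
  ∀ F : IntermediateField ℚ Qb, FiniteDimensional ℚ F → P F → MuZero p R F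

/-- `N` is a number field which is Galois over `ℚ`. -/
def GaloisField (N : IntermediateField ℚ Qb) : Prop := FiniteDimensional ℚ N ∧ IsGalois ℚ N

/-- `K` is Galois over `ℚ` and totally real or CM. -/
def RealOrCM (K : IntermediateField ℚ Qb) : Prop :=
  IsGalois ℚ K ∧ (IsTotallyReal K ∨ IsCMField K)

/-- the restriction of `c` to `N` is an element of order at most two of `Gal(N/F)` -/
def Involution (F N : IntermediateField ℚ Qb) (c : Gal(Qb/ℚ)) : Prop :=
  c ∈ F.fixingSubgroup ∧ ∀ x ∈ N, c (c x) = x

end Pool.Agent.K4H1.IM
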