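import Pool.Agent.Q60.MU.Coind

/-!
# Groups acting freely on the nonzero vectors of a vector space over `𝔽_p`
-/

set_option autoImplicit false

namespace Pool.Agent.K4H1.IM

open Subgroup Module Pool.Agent.Q60.MU

theorem cyclic_of_free {p : ℕ} [Fact p.Prime] {B : Type} [Group B] [Finite B]
    (hcomm : ∀ x y : B, x * y = y * x) {V : Type} [AddCommGroup V] [Module (ZMod p) V]
    [Module.Finite (ZMod p) V] [Nontrivial V] (ρ : Representation (ZMod p) B V)
    (hfree : ∀ b v, v ≠ 0 → ρ b v = v → b = 1) : IsCyclic B := by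
  obtain ⟨U, hU, hU0, hs⟩ := exists_simple_sub ρ
  have hnt : Nontrivial U := hs.1
  obtain ⟨ρ', hρ'⟩ : ∃ ρ', ρ' = sub ρ hU := ⟨_, rfl⟩
  rw [← hρ'] at hs
  have hfree' : ∀ b v, v ≠ 0 → ρ' b v = v → b = 1 := by
    intro b v hv h
    refine hfree b v (fun h0 => hv (Subtype.ext h0)) ?_
    rw [hρ'] at h
    have h1 := congrArg Subtype.val h
    rwa [sub_coe] at h1
  have hc : ∀ a ∈ Set.range ρ', ∀ b ∈ Set.range ρ', a * b = b * a := by
    rintro _ ⟨a, rfl⟩ _ ⟨b, rfl⟩
    rw [← map_mul, hcomm, map_mul]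
  letI : CommRing (Algebra.adjoin (ZMod p) (Set.range ρ')) :=
    Algebra.adjoinCommRingOfComm (ZMod p) hc
  have hcommA : ∀ f : Algebra.adjoin (ZMod p) (Set.range ρ'), ∀ b x,
      (f : Module.End (ZMod p) U) (ρ' b x) = ρ' b ((f : Module.End (ZMod p) U) x) := by
    intro f b x
    have h1 := mul_comm f ⟨ρ' b, Algebra.subset_adjoin ⟨b, rfl⟩⟩
    have h2 := congrArg Subtype.val h1
    exact LinearMap.congr_fun h2 x
  have hinj : ∀ f : Algebra.adjoin (ZMod p) (Set.range ρ'), f ≠ 0 → ∀ x,
      (f : Module.End (ZMod p) U) x = 0 → x = 0 := by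
    intro f hf x hx
    rcases hs.2 (LinearMap.ker (f : Module.End (ZMod p) U)) (by
      intro g y hy
      rw [LinearMap.mem_ker] at hy ⊢
      rw [hcommA, hy, map_zero]) with h | h
    · have h1 : x ∈ LinearMap.ker (f : Module.End (ZMod p) U) := hx
      rw [h] at h1
      exact h1
    · exfalso
      apply hf
      apply Subtype.ext
      exact LinearMap.ker_eq_top.1 h
  have hnz : NoZeroDivisors (Algebra.adjoin (ZMod p) (Set.range ρ')) := ⟨by
    intro f g hfg
    by_cases hf : f = 0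
    · exact Or.inl hf
    · right
      apply Subtype.ext
      apply LinearMap.ext
      intro x
      refine hinj f hf _ ?_
      have h2 := congrArg Subtype.val hfg
      exact LinearMap.congr_fun h2 x⟩
  have hnt' : Nontrivial (Algebra.adjoin (ZMod p) (Set.range ρ')) := inferInstance
  have hdom : IsDomain (Algebra.adjoin (ZMod p) (Set.range ρ')) := NoZeroDivisors.to_isDomain _
  let F : B →* Algebra.adjoin (ZMod p) (Set.range ρ') :=
    { toFun := fun b => ⟨ρ' b, Algebra.subset_adjoin ⟨b, rfl⟩⟩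
      map_one' := Subtype.ext (map_one ρ')
      map_mul' := fun a b => Subtype.ext (map_mul ρ' a b) }
  refine isCyclic_of_subgroup_isDomain F ?_
  rw [injective_iff_map_eq_one]
  intro b hb
  obtain ⟨v, hv⟩ := exists_ne (0 : U)
  refine hfree' b v hv ?_
  have h2 := congrArg Subtype.val hb
  exact LinearMap.congr_fun h2 v

theorem free_facts {p : ℕ} [hp : Fact p.Prime] {A : Type} [Group A] [Finite A]
    {V : Type} [AddCommGroup V] [Module (ZMod p) V]
    [Module.Finite (ZMod p) V] [Nontrivial V] (ρ : Representation (ZMod p) A V)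
    (hfree : ∀ a v, v ≠ 0 → ρ a v = v → a = 1) : ¬ p ∣ Nat.card A ∧
      ∀ B : Subgroup A, (∀ x ∈ B, ∀ y ∈ B, x * y = y * x) → IsCyclic B := by
  constructor
  · intro hd
    obtain ⟨a, ha⟩ := exists_prime_orderOf_dvd_card' p hd
    have hG : IsPGroup p (zpowers a) := IsPGroup.of_card (n := 1) (by
      rw [Nat.card_zpowers, ha, pow_one])
    obtain ⟨v, hv, h⟩ := exists_fixed hG (ρ.comp (zpowers a).subtype)
    have h1 := hfree a v hv (h ⟨a, mem_zpowers a⟩)
    rw [h1, orderOf_one] at ha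
    exact hp.1.one_lt.ne ha
  · intro B hB
    refine cyclic_of_free (fun x y => Subtype.ext (hB x x.2 y y.2)) (ρ.comp B.subtype) ?_
    intro b v hv h
    exact Subtype.ext (hfree b v hv h)

end Pool.Agent.K4H1.IM
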