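import Pool.Agent.K4H1.IM.Defs

/-!
# Involutions and class groups modulo an odd prime: the detecting families
-/

set_option autoImplicit false

namespace Pool.Agent.K4H1.IM

open Subgroup Module IntermediateField Pool.Agent.Q60.MU Pool.Agent.K4H24.IW
open scoped Pointwise commutatorElement

section rep

variable {k : Type} [Field k] {G : Type} [Group G] {S : Type} [AddCommGroup S] [Module k S]

theorem vec_or_neg (σ : Representation k G S) {c : G} (hc : ∀ x, σ c (σ c x) = x) :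
    (∃ v : S, v ≠ 0 ∧ σ c v = v) ∨ ∀ x, σ c x = -x := by
  by_cases h : ∀ x, x + σ c x = 0
  · right
    intro x
    exact eq_neg_of_add_eq_zero_right (h x)
  · left
    push Not at h
    obtain ⟨x, hx⟩ := h
    refine ⟨x + σ c x, hx, ?_⟩
    rw [map_add, hc, add_comm]

theorem form_or_neg (σ : Representation k G S) {c : G} (hc : ∀ x, σ c (σ c x) = x) :
    (∃ f : S →ₗ[k] k, f ≠ 0 ∧ ∀ x, f (σ c x) = f x) ∨ ∀ x, σ c x = -x := by
  by_cases h : ∀ x, x + σ c x = 0
  · right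
    intro x
    exact eq_neg_of_add_eq_zero_right (h x)
  · left
    push Not at h
    obtain ⟨x, hx⟩ := h
    obtain ⟨g, hg⟩ := Module.Projective.exists_dual_ne_zero k hx
    refine ⟨g + g.comp (σ c), fun h0 => hg ?_, fun y => ?_⟩
    · have h1 := LinearMap.congr_fun h0 x
      rw [LinearMap.add_apply, LinearMap.comp_apply, LinearMap.zero_apply, ← map_add] at h1
      exact h1
    · rw [LinearMap.add_apply, LinearMap.add_apply, LinearMap.comp_apply, LinearMap.comp_apply, hc,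
        add_comm]

end rep

section grp

variable {k : Type} [Field k] {𝔾 : Type} [Group 𝔾] {D : Subgroup 𝔾} {S : Type} [AddCommGroup S]
  [Module k S]

/-- the elements which leave the form invariant -/
def formStab (σ : Representation k D S) (f : S →ₗ[k] k) : Subgroup 𝔾 where
  carrier := {g | ∃ h : g ∈ D, ∀ x, f (σ ⟨g, h⟩ x) = f x}
  mul_mem' := by
    rintro a b ⟨ha, ha'⟩ ⟨hb, hb'⟩
    refine ⟨D.mul_mem ha hb, fun x => ?_⟩
    have h1 : (⟨a * b, D.mul_mem ha hb⟩ : D) = ⟨a, ha⟩ * ⟨b, hb⟩ := rfl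
    rw [h1, map_mul, Module.End.mul_apply, ha', hb']
  one_mem' := by
    refine ⟨D.one_mem, fun x => ?_⟩
    have h1 : (⟨1, D.one_mem⟩ : D) = 1 := rfl
    rw [h1, map_one]
    rfl
  inv_mem' := by
    rintro a ⟨ha, ha'⟩
    refine ⟨D.inv_mem ha, fun x => ?_⟩
    rw [← ha']
    have h1 : (⟨a⁻¹, D.inv_mem ha⟩ : D) = (⟨a, ha⟩ : D)⁻¹ := rfl
    rw [h1, ← Module.End.mul_apply, ← map_mul, mul_inv_cancel, map_one]
    rfl

theorem mem_formStab {σ : Representation k D S} {f : S →ₗ[k] k} {g : 𝔾} :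
    g ∈ formStab σ f ↔ ∃ h : g ∈ D, ∀ x, f (σ ⟨g, h⟩ x) = f x := Iff.rfl

end grp

section fld

theorem fixedField_sup (A B : Subgroup Gal(Qb/ℚ)) :
    fixedField (A ⊔ B) = fixedField A ⊓ fixedField B := by
  refine eq_of_forall_le_iff fun E => ?_
  rw [le_iff_le, sup_le_iff, le_inf_iff, le_iff_le, le_iff_le]

theorem fix_inf (N : IntermediateField ℚ Qb) [FiniteDimensional ℚ N] (H : Subgroup Gal(Qb/ℚ)) :
    (N ⊓ fixedField H).fixingSubgroup = N.fixingSubgroup ⊔ H := by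
  have h1 : N ⊓ fixedField H = fixedField (N.fixingSubgroup ⊔ H) := by
    rw [fixedField_sup, InfiniteGalois.fixedField_fixingSubgroup]
  rw [h1]
  exact fix_fixed (Subgroup.isOpen_mono le_sup_left N.fixingSubgroup_isOpen)

theorem comm_mem {H : Subgroup Gal(Qb/ℚ)} {g c : Gal(Qb/ℚ)} (hg : g ∈ H) (hc : c ∈ H) :
    ⁅g, c⁆ ∈ H := by
  rw [commutatorElement_def]
  exact mul_mem (mul_mem (mul_mem hg hc) (inv_mem hg)) (inv_mem hc)

open Classical in
theorem detecting {p : ℕ} [Fact p.Prime] {F N : IntermediateField ℚ Qb}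
    [FiniteDimensional ℚ N] (hFN : F ≤ N) {c : Gal(Qb/ℚ)} (hcF : c ∈ F.fixingSubgroup)
    (hc : ∀ x ∈ N, c (c x) = x) :
    DetectingForms p F N {fixedPart c N, centralPart F c N} := by
  classical
  have hF1 : F ≤ fixedPart c N := by
    refine le_inf hFN ?_
    rw [le_iff_le, zpowers_le]
    exact hcF
  have hF2 : F ≤ centralPart F c N := by
    refine le_inf hFN ?_
    rw [le_iff_le, closure_le]
    rintro _ ⟨g, hg, rfl⟩
    exact comm_mem hg hcF
  refine ⟨fun E hE => ?_, ?_⟩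
  · rw [Finset.mem_insert, Finset.mem_singleton] at hE
    rcases hE with rfl | rfl
    · exact ⟨hF1, inf_le_left⟩
    · exact ⟨hF2, inf_le_left⟩
  intro S _ _ _ σ htriv hs
  have hcc : ∀ x, σ ⟨c, hcF⟩ (σ ⟨c, hcF⟩ x) = x := by
    intro x
    rw [← Module.End.mul_apply, ← map_mul]
    refine htriv _ ?_ x
    rw [mem_subgroupOf, IntermediateField.mem_fixingSubgroup_iff]
    exact hc
  have hN : ∀ f : S →ₗ[ZMod p] ZMod p, N.fixingSubgroup ≤ formStab σ f := by
    intro f g hg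
    have hgF : g ∈ F.fixingSubgroup := fixingSubgroup_le hFN hg
    refine ⟨hgF, fun x => ?_⟩
    rw [htriv ⟨g, hgF⟩ hg x]
  rcases form_or_neg σ hcc with ⟨f, hf, hfc⟩ | hneg
  · refine ⟨_, ⟨fixedPart c N, by simp, rfl⟩, f, hf, ?_⟩
    intro g hg x
    rw [mem_subgroupOf, fixedPart, fix_inf] at hg
    have h1 : N.fixingSubgroup ⊔ zpowers c ≤ formStab σ f :=
      sup_le (hN f) (by
        rw [zpowers_le]
        exact ⟨hcF, hfc⟩)
    obtain ⟨_, h2⟩ := h1 hg
    exact h2 x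
  · have hnt : Nontrivial S := hs.1
    obtain ⟨y, hy⟩ := exists_ne (0 : S)
    obtain ⟨f, hf⟩ := Module.Projective.exists_dual_ne_zero (ZMod p) hy
    refine ⟨_, ⟨centralPart F c N, by simp, rfl⟩, f, fun h0 => hf (by rw [h0]; rfl), ?_⟩
    intro g hg x
    rw [mem_subgroupOf, centralPart, fix_inf] at hg
    have h1 : N.fixingSubgroup ⊔ closure {x | ∃ g ∈ F.fixingSubgroup, x = ⁅g, c⁆} ≤
        formStab σ f := by
      refine sup_le (hN f) ?_
      rw [closure_le]
      rintro _ ⟨g, hg, rfl⟩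
      refine ⟨comm_mem hg hcF, fun x => ?_⟩
      · have h2 : (⟨⁅g, c⁆, comm_mem hg hcF⟩ :
              F.fixingSubgroup) = ⟨g, hg⟩ * ⟨c, hcF⟩ * ⟨g, hg⟩⁻¹ * ⟨c, hcF⟩⁻¹ := rfl
        have h3 : σ ⟨c, hcF⟩⁻¹ x = -x := by
          have h4 : σ ⟨c, hcF⟩ (σ ⟨c, hcF⟩⁻¹ x) = x := by
            rw [← Module.End.mul_apply, ← map_mul, mul_inv_cancel, map_one]
            rfl
          rw [hneg] at h4
          exact neg_eq_iff_eq_neg.1 h4
        rw [h2, map_mul, map_mul, map_mul, Module.End.mul_apply, Module.End.mul_apply,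
          Module.End.mul_apply, h3, hneg, map_neg (σ ⟨g, hg⟩⁻¹), neg_neg, ← Module.End.mul_apply,
          ← map_mul, mul_inv_cancel, map_one]
        rfl
    obtain ⟨_, h2⟩ := h1 hg
    exact h2 x

end fld

end Pool.Agent.K4H1.IM
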