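import Pool.Agent.K4H1.IM.CM
import Pool.Agent.K4H1.IM.Free

/-!
# The fields of the vectors of simple modules with maximal stabiliser
-/

set_option autoImplicit false

namespace Pool.Agent.K4H1.IM

open Subgroup Module IntermediateField Pool.Agent.Q60.MU NumberField
open scoped Pointwise

section aut

variable {p : ℕ} [hp : Fact p.Prime] {S : Type} [AddCommGroup S] [Module (ZMod p) S]
  (τ : Representation (ZMod p) Gal(Qb/ℚ) S)

/-- the vectors fixed by `H` -/
def fixedBy (H : Subgroup Gal(Qb/ℚ)) : Submodule (ZMod p) S where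
  carrier := {w | ∀ h ∈ H, τ h w = w}
  add_mem' := by
    intro a b ha hb h hh
    rw [map_add, ha h hh, hb h hh]
  zero_mem' := fun h _ => map_zero _
  smul_mem' := by
    intro r a ha h hh
    rw [map_smul, ha h hh]

theorem mem_fixedBy {H : Subgroup Gal(Qb/ℚ)} {w : S} :
    w ∈ fixedBy τ H ↔ ∀ h ∈ H, τ h w = w := Iff.rfl

/-- a lift of an automorphism -/
theorem exists_lift (E : IntermediateField ℚ Qb) (a : Gal(E/ℚ)) :
    ∃ g : Gal(Qb/ℚ), ∀ x : E, g x = ((a x : E) : Qb) := by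
  have hN : Normal ℚ Qb := isGalois_Qb.to_normal
  exact ⟨a.liftNormal Qb, fun x => AlgEquiv.liftNormal_commutes a Qb x⟩

theorem aut_facts [Module.Finite (ZMod p) S] {v : S} (hv : v ≠ 0) {E : IntermediateField ℚ Qb}
    [FiniteDimensional ℚ E] (hE : E.fixingSubgroup = stab τ v)
    (hmax : ∀ w, w ≠ 0 → stab τ v ≤ stab τ w → stab τ w ≤ stab τ v) : FewAut p E := by
  have hmemE : ∀ g : Gal(Qb/ℚ), g ∈ E.fixingSubgroup ↔ ∀ x : E, g x = x := by
    intro g
    rw [IntermediateField.mem_fixingSubgroup_iff]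
    exact ⟨fun h x => h x x.2, fun h x hx => h ⟨x, hx⟩⟩
  choose l hl using exists_lift E
  have hVv : ∀ w ∈ fixedBy τ E.fixingSubgroup, ∀ h ∈ E.fixingSubgroup, τ h w = w :=
    fun w hw => hw
  have hnorm : ∀ a, ∀ h ∈ E.fixingSubgroup, (l a)⁻¹ * h * l a ∈ E.fixingSubgroup := by
    intro a h hh
    rw [hmemE]
    intro x
    rw [AlgEquiv.mul_apply, AlgEquiv.mul_apply, hl, (hmemE h).1 hh (a x), ← hl,
      ← AlgEquiv.mul_apply, inv_mul_cancel, AlgEquiv.one_apply]
  have hstab : ∀ a, ∀ w ∈ fixedBy τ E.fixingSubgroup, τ (l a) w ∈ fixedBy τ E.fixingSubgroup := by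
    intro a w hw h hh
    have h1 : h * l a = l a * ((l a)⁻¹ * h * l a) := by group
    rw [← Module.End.mul_apply, ← map_mul, h1, map_mul, Module.End.mul_apply,
      hVv w hw _ (hnorm a h hh)]
  have heq : ∀ g g' : Gal(Qb/ℚ), (∀ x : E, g x = g' x) →
      ∀ w ∈ fixedBy τ E.fixingSubgroup, τ g w = τ g' w := by
    intro g g' h w hw
    have h1 : g = g' * (g'⁻¹ * g) := by group
    have h2 : g'⁻¹ * g ∈ E.fixingSubgroup := by
      rw [hmemE]
      intro x
      rw [AlgEquiv.mul_apply, h, ← AlgEquiv.mul_apply, inv_mul_cancel, AlgEquiv.one_apply]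
    rw [h1, map_mul, Module.End.mul_apply, hVv w hw _ h2]
  let ρ : Representation (ZMod p) Gal(E/ℚ) (fixedBy τ E.fixingSubgroup) :=
    { toFun := fun a => (τ (l a)).restrict (hstab a)
      map_one' := by
        ext w
        show τ (l 1) w = w
        rw [heq (l 1) 1 (fun x => by rw [hl]; rfl) w w.2, map_one]
        rfl
      map_mul' := fun a b => by
        ext w
        show τ (l (a * b)) w = τ (l a) (τ (l b) w)
        rw [← Module.End.mul_apply, ← map_mul]
        refine heq _ _ (fun x => ?_) w w.2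
        rw [hl, AlgEquiv.mul_apply, AlgEquiv.mul_apply, hl, hl] }
  have hρ : ∀ a w, ((ρ a w : fixedBy τ E.fixingSubgroup) : S) = τ (l a) w := fun a w => rfl
  have hnt : Nontrivial (fixedBy τ E.fixingSubgroup) := by
    refine ⟨⟨v, ?_⟩, 0, fun h => hv (congrArg Subtype.val h)⟩
    rw [mem_fixedBy, hE]
    exact fun h hh => hh
  refine free_facts ρ ?_
  intro a w hw h
  have hw0 : (w : S) ≠ 0 := fun h0 => hw (Subtype.ext h0)
  have h1 : stab τ v ≤ stab τ (w : S) := by
    rw [← hE]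
    exact w.2
  have h2 : l a ∈ E.fixingSubgroup := by
    rw [hE]
    refine hmax w hw0 h1 ?_
    rw [mem_stab, ← hρ, h]
  ext x
  rw [← hl, (hmemE _).1 h2]
  rfl

/-- a vector with a given property, with maximal stabiliser -/
theorem exists_max {Q : S → Prop} (hQ : ∀ v w, stab τ v ≤ stab τ w → Q v → Q w)
    (hidx : ∀ v, (stab τ v).index ≠ 0) (h : ∃ v, v ≠ 0 ∧ Q v) :
    ∃ v, v ≠ 0 ∧ Q v ∧ ∀ w, w ≠ 0 → stab τ v ≤ stab τ w → stab τ w ≤ stab τ v := by
  classical
  have hex : ∃ n, ∃ v, v ≠ 0 ∧ Q v ∧ (stab τ v).index = n := by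
    obtain ⟨v, hv, hQv⟩ := h
    exact ⟨_, v, hv, hQv, rfl⟩
  obtain ⟨v, hv, hQv, hn⟩ := Nat.find_spec hex
  refine ⟨v, hv, hQv, fun w hw hle => ?_⟩
  have h1 : Nat.find hex ≤ (stab τ w).index := Nat.find_min' hex ⟨w, hw, hQ v w hle hQv, rfl⟩
  rw [← hn] at h1
  have h2 := relIndex_mul_index hle
  have h3 : (stab τ v).relIndex (stab τ w) = 1 := by
    have h4 : 0 < (stab τ w).index := Nat.pos_of_ne_zero (hidx w)
    have h5 : (stab τ v).relIndex (stab τ w) ≠ 0 := by
      intro h0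
      rw [h0, zero_mul] at h2
      exact hidx v h2.symm
    by_contra h6
    have h7 : 2 ≤ (stab τ v).relIndex (stab τ w) := by omega
    have h8 : 2 * (stab τ w).index ≤ (stab τ v).index := by
      rw [← h2]
      exact Nat.mul_le_mul_right _ h7
    omega
  exact relIndex_eq_one.1 h3

end aut

end Pool.Agent.K4H1.IM
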