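import Pool.Agent.K4H1.IM.Cnt

/-!
# Detecting simple modules by fields with restrictions on their embeddings
-/

set_option autoImplicit false

namespace Pool.Agent.K4H1.IM

open Subgroup Module IntermediateField Pool.Agent.Q60.MU NumberField
open scoped Pointwise

theorem realPlaces_eq {φ : Qb →+* ℂ} {c : Gal(Qb/ℚ)} (hc : IsConjOf φ c)
    (E : IntermediateField ℚ Qb) [NumberField E] : embFix (zpowers c) E = realPlaces E := by
  classical
  rw [embFix_conj hc, realPlaces]
  exact (@Nat.card_eq_fintype_card _ _).symm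

section field

variable {p : ℕ} [hp : Fact p.Prime] (N : IntermediateField ℚ Qb) [FiniteDimensional ℚ N]
  (hNn : IsGalois ℚ N) {S : Type} [AddCommGroup S] [Module (ZMod p) S] [Module.Finite (ZMod p) S]
  (τ : Representation (ZMod p) Gal(Qb/ℚ) S) (hτ : ∀ g ∈ N.fixingSubgroup, ∀ x, τ g x = x)

include hτ in
theorem field_facts (v : S) : IsOpen (stab τ v : Set Gal(Qb/ℚ)) ∧ (stab τ v).index ≠ 0 ∧
    (fixedField (stab τ v)).fixingSubgroup = stab τ v ∧
    FiniteDimensional ℚ (fixedField (stab τ v)) ∧ fixedField (stab τ v) ≤ N := by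
  have hle : N.fixingSubgroup ≤ stab τ v := fun g hg => hτ g hg v
  have hopen : IsOpen (stab τ v : Set Gal(Qb/ℚ)) :=
    Subgroup.isOpen_mono hle N.fixingSubgroup_isOpen
  have hidx : (stab τ v).index ≠ 0 := by
    intro h
    have h1 := relIndex_mul_index hle
    rw [h, mul_zero] at h1
    exact index_ne_zero' N h1.symm
  refine ⟨hopen, hidx, fix_fixed hopen, finite_fixed hopen hidx, ?_⟩
  rw [← InfiniteGalois.fixedField_fixingSubgroup N]
  exact fixedField_antitone hle

include hNn hτ in
/-- **Detection with a subgroup `D`.** -/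
theorem exists_emb [Nontrivial S] (D : Subgroup Gal(Qb/ℚ)) : ∃ v : S, v ≠ 0 ∧
    (¬ p ∣ embFix D (fixedField (stab τ v)) ∨
      ((∀ w, w ≠ 0 → w ∉ fixedBy τ D) ∧ embFix D (fixedField (stab τ v)) = 0 ∧
        ¬ p ∣ finrank ℚ (fixedField (stab τ v)) ∧ FewAut p (fixedField (stab τ v)))) := by
  have hKn : N.fixingSubgroup.Normal := (InfiniteGalois.normal_iff_isGalois N).2 hNn
  have hff := field_facts N τ hτ
  by_cases h : ∃ v, v ≠ 0 ∧ v ∈ fixedBy τ D
  · obtain ⟨v, hv, hv', hd⟩ := exists_orb τ D h
    refine ⟨v, hv, Or.inl ?_⟩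
    rw [embFix_eq τ D (hff v).2.2.1]
    exact hd
  · push Not at h
    obtain ⟨v, hv, hQ, hmax⟩ := exists_max τ (Q := fun v => ¬ p ∣ (stab τ v).index)
      (fun v w h1 h2 h3 => h2 (h3.trans (index_dvd_of_le h1))) (fun v => (hff v).2.1) (by
        obtain ⟨v, hv, P, hP, hPp⟩ := exists_vec_P hKn (index_ne_zero' N) τ hτ
        exact ⟨v, hv, fun h => hPp (h.trans (index_dvd_of_le hP))⟩)
    have := (hff v).2.2.2.1
    refine ⟨v, hv, Or.inr ⟨h, ?_, ?_, aut_facts τ hv (hff v).2.2.1 hmax⟩⟩
    · rw [embFix_eq τ D (hff v).2.2.1]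
      have h1 : orbFix τ D v = ∅ := by
        ext w
        simp only [Set.mem_empty_iff_false, iff_false]
        rintro ⟨hw, hw'⟩
        refine h w ?_ hw'
        rintro rfl
        obtain ⟨g, hg⟩ := orb_symm τ hw
        rw [map_zero] at hg
        exact hv hg
      rw [h1, Set.ncard_empty]
    · rw [finrank_eq_fixingSubgroup_index, (hff v).2.2.1]
      exact hQ

include hNn hτ in
/-- **Detection with the complex conjugation.** -/
theorem exists_cm [Nontrivial S] {φ : Qb →+* ℂ} {c : Gal(Qb/ℚ)} (hc : IsConjOf φ c) :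
    ∃ v : S, v ≠ 0 ∧
      (CMGood p (fixedField (stab τ v)) ∨ ¬ p ∣ realPlaces (fixedField (stab τ v))) := by
  have hff := field_facts N τ hτ
  have hcc : ∀ x, τ c (τ c x) = x := by
    intro x
    have h1 : c * c = 1 := by
      ext y
      exact conj_sq hc y
    rw [← Module.End.mul_apply, ← map_mul, h1, map_one]
    rfl
  obtain ⟨v, hv, h3⟩ := exists_emb N hNn τ hτ (zpowers c)
  have hfd := (hff v).2.2.2.1
  have hnf : NumberField (fixedField (stab τ v)) := NumberField.of_module_finite ℚ _
  refine ⟨v, hv, ?_⟩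
  rw [← realPlaces_eq hc]
  rcases h3 with h3 | ⟨h0, h3, h4, h5⟩
  · exact Or.inr h3
  left
  have hneg : ∀ x, τ c x = -x := by
    rcases vec_or_neg τ hcc with ⟨w, hw, h⟩ | h
    · exfalso
      refine h0 w hw fun d hd => ?_
      have h1 : zpowers c ≤ stab τ w := by
        rw [zpowers_le]
        exact h
      exact h1 hd
    · exact h
  have hcen : ∀ g x, τ (g * c) x = τ (c * g) x := by
    intro g x
    rw [map_mul, map_mul, Module.End.mul_apply, Module.End.mul_apply, hneg, hneg, map_neg]
  refine ⟨?_, h4, h5⟩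
  have hmemE : ∀ g : Gal(Qb/ℚ), τ g v = v ↔ ∀ x ∈ fixedField (stab τ v), g x = x := by
    intro g
    rw [← IntermediateField.mem_fixingSubgroup_iff, (hff v).2.2.1]
    exact Iff.rfl
  rcases real_or_cm hc (E := fixedField (stab τ v)) (by
      intro x hx
      rw [mem_fixedField_iff] at hx ⊢
      intro h hh
      have h1 : τ (c⁻¹ * h * c) v = v := by
        rw [mul_assoc, map_mul, Module.End.mul_apply, hcen, map_mul, Module.End.mul_apply, hh,
          ← Module.End.mul_apply, ← map_mul, inv_mul_cancel, map_one]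
        rfl
      have h2 := hx _ h1
      have h3 : h * c = c * (c⁻¹ * h * c) := by group
      rw [← AlgEquiv.mul_apply, h3, AlgEquiv.mul_apply, h2]) (by
      intro g x hx
      have h1 : τ ((c * g)⁻¹ * (g * c)) v = v := by
        rw [map_mul, Module.End.mul_apply, hcen, ← Module.End.mul_apply, ← map_mul,
          inv_mul_cancel, map_one]
        rfl
      have h2 := (hmemE _).1 h1 x hx
      have h3 : g * c = (c * g) * ((c * g)⁻¹ * (g * c)) := by group
      have h4 : (g * c) x = (c * g) x := by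
        rw [h3, AlgEquiv.mul_apply, h2]
      exact h4.symm) with h6 | h6
  · exfalso
    rw [realPlaces_eq hc, realPlaces] at h3
    have w : InfinitePlace (fixedField (stab τ v)) := Classical.arbitrary _
    have hfin : Finite {w : InfinitePlace (fixedField (stab τ v)) // w.IsReal} := inferInstance
    have hne : Nonempty {w : InfinitePlace (fixedField (stab τ v)) // w.IsReal} :=
      ⟨⟨w, h6.isReal w⟩⟩
    exact Nat.card_pos.ne' h3
  · exact h6

end field

end Pool.Agent.K4H1.IM
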