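import Pool.Agent.K4H1.IM.Two
import Pool.Agent.K4H1.IM.Dec2

/-!
# The cyclotomic tower: the reduction to the real subfield and the CM subfields
-/

set_option autoImplicit false

namespace Pool.Agent.K4H1.IM

open Subgroup Module IntermediateField Pool.Agent.Q60.MU Pool.Agent.K4H24.IW NumberField
open scoped Pointwise commutatorElement

theorem comm_normal {G : Type} [Group G] (c : G) :
    (closure {x | ∃ g ∈ (⊤ : Subgroup G), x = ⁅g, c⁆}).Normal := by
  refine ⟨fun n hn g => ?_⟩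
  have h1 : closure {x | ∃ g ∈ (⊤ : Subgroup G), x = ⁅g, c⁆} ≤
      (closure {x | ∃ g ∈ (⊤ : Subgroup G), x = ⁅g, c⁆}).comap (MulAut.conj g).toMonoidHom := by
    rw [closure_le]
    rintro _ ⟨h, -, rfl⟩
    show g * ⁅h, c⁆ * g⁻¹ ∈ closure {x | ∃ g ∈ (⊤ : Subgroup G), x = ⁅g, c⁆}
    have h2 : g * ⁅h, c⁆ * g⁻¹ = ⁅g * h, c⁆ * ⁅g, c⁆⁻¹ := by
      simp only [commutatorElement_def]
      group
    rw [h2]
    exact mul_mem (subset_closure ⟨g * h, mem_top _, rfl⟩)
      (inv_mem (subset_closure ⟨g, mem_top _, rfl⟩))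
  exact h1 hn

theorem relIndex_ne_zero_aux {G : Type} [Group G] {K L M : Subgroup G} (h : K.relIndex L ≠ 0)
    (hle : M ≤ L) (h0 : K.relIndex M = 0) : K.relIndex L = 0 :=
  relIndex_eq_zero_of_le_right hle h0

section tower

variable {p : ℕ} [hp : Fact p.Prime] (hp2 : p ≠ 2) {R : ℕ → IntermediateField ℚ Qb}
  (hR : IsCycTower p R)

include hp2 hR

theorem mu_mono {N : IntermediateField ℚ Qb} (hN : FiniteDimensional ℚ N) (hNn : IsGalois ℚ N)
    {E : IntermediateField ℚ Qb} (hE : E ≤ N) (h : MuZero p R N) : MuZero p R E := by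
  have hEd : FiniteDimensional ℚ E :=
    Submodule.finiteDimensional_of_le (S₁ := Subalgebra.toSubmodule E.toSubalgebra)
      (S₂ := Subalgebra.toSubmodule N.toSubalgebra) hE
  have hRd : ∀ m, FiniteDimensional ℚ (R m) := fun m => (cyc_facts hp2 hR m).1
  rw [← mu_iff hRd] at h ⊢
  exact Mu0.of_le (fun m => by
    have := hRd m
    exact (R m).fixingSubgroup_isOpen) ((InfiniteGalois.normal_iff_isGalois N).2 hNn)
    (fixingSubgroup_le hE) N.fixingSubgroup_isOpen (index_ne_zero' N) h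

theorem detect {N : IntermediateField ℚ Qb} (hN : FiniteDimensional ℚ N) (hNn : IsGalois ℚ N)
    (𝓔 : Set (IntermediateField ℚ Qb)) (h𝓔 : ∀ E ∈ 𝓔, E ≤ N)
    (hdet : ∀ (S : Type) [AddCommGroup S] [Module (ZMod p) S] [Module.Finite (ZMod p) S]
      (τ : Representation (ZMod p) Gal(Qb/ℚ) S), (∀ g ∈ N.fixingSubgroup, ∀ x, τ g x = x) →
      IsSimple τ → ∃ E ∈ 𝓔, ∃ v : S, v ≠ 0 ∧ ∀ g ∈ E.fixingSubgroup, τ g v = v)
    (hmu : ∀ E ∈ 𝓔, MuZero p R E) (F : IntermediateField ℚ Qb) (hF : F ≤ N) :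
    MuZero p R F :=
  field_detect p R (fun m => (cyc_facts hp2 hR m).1)
    (fun m => (InfiniteGalois.normal_iff_isGalois (R m)).1 (cyc_facts hp2 hR m).2.1)
    (fin_dec hp2 hR) N hN hNn 𝓔 h𝓔 hdet hmu F hF

theorem mu_mono' {K : IntermediateField ℚ Qb} (hK : FiniteDimensional ℚ K)
    {E : IntermediateField ℚ Qb} (hE : E ≤ K) (h : MuZero p R K) : MuZero p R E := by
  have hEd : FiniteDimensional ℚ E :=
    Submodule.finiteDimensional_of_le (S₁ := Subalgebra.toSubmodule E.toSubalgebra)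
      (S₂ := Subalgebra.toSubmodule K.toSubalgebra) hE
  have hRd : ∀ m, FiniteDimensional ℚ (R m) := fun m => (cyc_facts hp2 hR m).1
  rw [← mu_iff hRd] at h ⊢
  obtain ⟨C, hC⟩ := h
  have hle := fixingSubgroup_le hE
  have hne : K.fixingSubgroup.relIndex E.fixingSubgroup ≠ 0 := by
    intro h0
    have h1 := relIndex_mul_index hle
    rw [h0, zero_mul] at h1
    exact index_ne_zero' K h1.symm
  refine ⟨C * K.fixingSubgroup.relIndex E.fixingSubgroup, fun m => ?_⟩
  have := hRd m
  have h1 : (K.fixingSubgroup ⊓ (R m).fixingSubgroup).relIndex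
      (E.fixingSubgroup ⊓ (R m).fixingSubgroup) =
      K.fixingSubgroup.relIndex (E.fixingSubgroup ⊓ (R m).fixingSubgroup) := by
    rw [← inf_relIndex_right, ← inf_relIndex_right K.fixingSubgroup]
    congr 1
    ext x
    simp only [Subgroup.mem_inf]
    tauto
  have h2 : K.fixingSubgroup.relIndex (E.fixingSubgroup ⊓ (R m).fixingSubgroup) ≤
      K.fixingSubgroup.relIndex E.fixingSubgroup := relIndex_le_of_le_right inf_le_left hne
  have h3 : K.fixingSubgroup.relIndex (E.fixingSubgroup ⊓ (R m).fixingSubgroup) ≠ 0 := by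
    intro h0
    exact hne (relIndex_ne_zero_aux hne inf_le_left h0)
  refine (RankLe.of_le (inf_le_inf_right _ hle) (by
    rw [Subgroup.coe_inf]
    exact K.fixingSubgroup_isOpen.inter (R m).fixingSubgroup_isOpen) (by rw [h1]; exact h3)
    (hC m)).mono ?_
  rw [h1]
  exact Nat.mul_le_mul_left _ h2

theorem cm_iff {N : IntermediateField ℚ Qb} (hN : FiniteDimensional ℚ N) (hNn : IsGalois ℚ N) :
    MuZero p R N ↔ ∀ E ≤ N, CMGood p E ∨ ¬ p ∣ realPlaces E → MuZero p R E := by
  refine ⟨fun h E hE _ => mu_mono hp2 hR hN hNn hE h, fun h => ?_⟩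
  let φ : Qb →+* ℂ := (IsAlgClosed.lift : Qb →ₐ[ℚ] ℂ).toRingHom
  obtain ⟨c, hc⟩ := exists_conj φ
  refine detect hp2 hR hN hNn {E | E ≤ N ∧ (CMGood p E ∨ ¬ p ∣ realPlaces E)}
    (fun E hE => hE.1) ?_ (fun E hE => h E hE.1 hE.2) N le_rfl
  intro S _ _ _ τ hτ hs
  have hnt : Nontrivial S := hs.1
  obtain ⟨v, hv, h1⟩ := exists_cm N hNn τ hτ hc
  obtain ⟨-, -, h2, -, h3⟩ := field_facts N τ hτ v
  refine ⟨_, ⟨h3, h1⟩, v, hv, ?_⟩
  rw [h2]
  exact fun g hg => hg

theorem emb_iff {N : IntermediateField ℚ Qb} (hN : FiniteDimensional ℚ N) (hNn : IsGalois ℚ N)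
    (D : Subgroup Gal(Qb/ℚ)) :
    MuZero p R N ↔ ∀ E ≤ N, EmbGood p D E → MuZero p R E := by
  refine ⟨fun h E hE _ => mu_mono hp2 hR hN hNn hE h, fun h => ?_⟩
  refine detect hp2 hR hN hNn {E | E ≤ N ∧ EmbGood p D E}
    (fun E hE => hE.1) ?_ (fun E hE => h E hE.1 hE.2) N le_rfl
  intro S _ _ _ τ hτ hs
  have hnt : Nontrivial S := hs.1
  obtain ⟨v, hv, h1⟩ := exists_emb N hNn τ hτ D
  obtain ⟨-, -, h2, -, h3⟩ := field_facts N τ hτ v
  refine ⟨_, ⟨h3, h1.imp id fun h => h.2⟩, v, hv, ?_⟩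
  rw [h2]
  exact fun g hg => hg

theorem real_cm_iff {N : IntermediateField ℚ Qb} (hN : FiniteDimensional ℚ N)
    (hNn : IsGalois ℚ N) {φ : Qb →+* ℂ} {M : IntermediateField ℚ Qb} (hM : IsRealPart φ N M) :
    MuZero p R N ↔ MuZero p R M ∧
      ∀ K ≤ N, IsGalois ℚ K → IsTotallyReal K ∨ IsCMField K → MuZero p R K := by
  have hMN : M ≤ N := fun x hx => ((hM x).1 hx).1
  refine ⟨fun h => ⟨mu_mono hp2 hR hN hNn hMN h, fun K hK _ _ => mu_mono hp2 hR hN hNn hK h⟩, ?_⟩
  rintro ⟨hμM, hμK⟩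
  obtain ⟨c, hc⟩ := exists_conj φ
  have hMc : M = fixedPart c N := by
    ext x
    rw [hM, fixedPart, IntermediateField.mem_inf, mem_fixedField_iff]
    refine and_congr_right fun _ => ?_
    rw [← Complex.conj_eq_iff_im, ← hc, φ.injective.eq_iff]
    refine ⟨fun h g hg => ?_, fun h => h c (mem_zpowers c)⟩
    have h1 : zpowers c ≤ MulAction.stabilizer Gal(Qb/ℚ) x := by
      rw [zpowers_le]
      exact h
    exact h1 hg
  have hC1 : (centralPart ⊥ c N).fixingSubgroup =
      N.fixingSubgroup ⊔ closure {x | ∃ g ∈ (⊤ : Subgroup Gal(Qb/ℚ)), x = ⁅g, c⁆} := by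
    rw [centralPart, fix_inf, IntermediateField.fixingSubgroup_bot]
  have hnorm : (centralPart ⊥ c N).fixingSubgroup.Normal := by
    rw [hC1]
    have h1 : N.fixingSubgroup.Normal := (InfiniteGalois.normal_iff_isGalois N).2 hNn
    have h2 := comm_normal c
    exact Subgroup.sup_normal _ _
  have hCN : centralPart ⊥ c N ≤ N := inf_le_left
  have hCd : FiniteDimensional ℚ (centralPart ⊥ c N) :=
    Submodule.finiteDimensional_of_le
      (S₁ := Subalgebra.toSubmodule (centralPart ⊥ c N).toSubalgebra)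
      (S₂ := Subalgebra.toSubmodule N.toSubalgebra) hCN
  have hnf : NumberField (centralPart ⊥ c N) := NumberField.of_module_finite ℚ _
  have hmem : ∀ g, g ∈ (centralPart ⊥ c N).fixingSubgroup ↔ ∀ x ∈ centralPart ⊥ c N, g x = x :=
    fun g => IntermediateField.mem_fixingSubgroup_iff _ _
  have hRC := real_or_cm hc (E := centralPart ⊥ c N) (by
      intro x hx
      rw [← InfiniteGalois.fixedField_fixingSubgroup (centralPart ⊥ c N), mem_fixedField_iff]
      intro h hh
      have h1 : c⁻¹ * h * c ∈ (centralPart ⊥ c N).fixingSubgroup := by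
        have := hnorm.conj_mem h hh c⁻¹
        rwa [inv_inv] at this
      have h2 : h * c = c * (c⁻¹ * h * c) := by group
      rw [← AlgEquiv.mul_apply, h2, AlgEquiv.mul_apply, (hmem _).1 h1 x hx]) (by
      intro g x hx
      have h1 : c⁻¹ * ⁅g⁻¹, c⁆ * c ∈ (centralPart ⊥ c N).fixingSubgroup := by
        have h2 : ⁅g⁻¹, c⁆ ∈ (centralPart ⊥ c N).fixingSubgroup := by
          rw [hC1]
          exact (le_sup_right : _ ≤ N.fixingSubgroup ⊔ _) (subset_closure ⟨g⁻¹, mem_top _, rfl⟩)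
        have := hnorm.conj_mem _ h2 c⁻¹
        rwa [inv_inv] at this
      have h2 : c * g = g * c * (c⁻¹ * ⁅g⁻¹, c⁆ * c) := by
        rw [commutatorElement_def]
        group
      rw [← AlgEquiv.mul_apply, h2, AlgEquiv.mul_apply, (hmem _).1 h1 x hx,
        AlgEquiv.mul_apply])
  have hKμ := hμK (centralPart ⊥ c N) hCN ((InfiniteGalois.normal_iff_isGalois _).1 hnorm) hRC
  refine detect hp2 hR hN hNn {fixedPart c N, centralPart ⊥ c N} ?_ ?_ ?_ N le_rfl
  · rintro E (rfl | rfl)
    · exact inf_le_left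
    · exact hCN
  · intro S _ _ _ τ hτ hs
    have hnt : Nontrivial S := hs.1
    have hcc : ∀ x, τ c (τ c x) = x := by
      intro x
      have h1 : c * c = 1 := by
        ext y
        exact conj_sq hc y
      rw [← Module.End.mul_apply, ← map_mul, h1, map_one]
      rfl
    rcases vec_or_neg τ hcc with ⟨v, hv, h⟩ | h
    · refine ⟨_, Or.inl rfl, v, hv, ?_⟩
      have h1 : (fixedPart c N).fixingSubgroup ≤ stab τ v := by
        rw [fixedPart, fix_inf]
        refine sup_le (fun g hg => hτ g hg v) ?_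
        rw [zpowers_le]
        exact h
      exact fun g hg => h1 hg
    · obtain ⟨v, hv⟩ := exists_ne (0 : S)
      refine ⟨_, Or.inr rfl, v, hv, ?_⟩
      have h1 : (centralPart ⊥ c N).fixingSubgroup ≤ stab τ v := by
        rw [hC1]
        refine sup_le (fun g hg => hτ g hg v) ?_
        rw [closure_le]
        rintro _ ⟨g, -, rfl⟩
        show τ ⁅g, c⁆ v = v
        have h2 : τ c⁻¹ v = -v := by
          have h3 : τ c (τ c⁻¹ v) = v := by
            rw [← Module.End.mul_apply, ← map_mul, mul_inv_cancel, map_one]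
            rfl
          rw [h] at h3
          exact neg_eq_iff_eq_neg.1 h3
        rw [commutatorElement_def, map_mul, map_mul, map_mul, Module.End.mul_apply,
          Module.End.mul_apply, Module.End.mul_apply, h2, h, map_neg (τ g⁻¹), neg_neg,
          ← Module.End.mul_apply, ← map_mul, mul_inv_cancel, map_one]
        rfl
      exact fun g hg => h1 hg
  · rintro E (rfl | rfl)
    · rw [← hMc]
      exact hμM
    · exact hKμ

theorem all_iff : (∀ F : IntermediateField ℚ Qb, FiniteDimensional ℚ F → MuZero p R F) ↔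
    ∀ F : IntermediateField ℚ Qb, FiniteDimensional ℚ F →
      CMGood p F ∨ realPlaces F = 1 ∨ realPlaces F = 2 → MuZero p R F := by
  refine ⟨fun h F hF _ => h F hF, fun h F hF => ?_⟩
  let φ : Qb →+* ℂ := (IsAlgClosed.lift : Qb →ₐ[ℚ] ℂ).toRingHom
  obtain ⟨c, hc⟩ := exists_conj φ
  have hUf : F.fixingSubgroup.FiniteIndex := ⟨index_ne_zero' F⟩
  have hKn : F.fixingSubgroup.normalCore.Normal := normalCore_normal _
  have hKo : IsOpen (F.fixingSubgroup.normalCore : Set Gal(Qb/ℚ)) :=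
    isOpen_normalCore F.fixingSubgroup_isOpen (index_ne_zero' F)
  have hKf : F.fixingSubgroup.normalCore.index ≠ 0 := by
    have : F.fixingSubgroup.normalCore.FiniteIndex := F.fixingSubgroup.finiteIndex_normalCore
    exact FiniteIndex.index_ne_zero
  have hfix := fix_fixed hKo
  have h1 := finite_fixed hKo hKf
  have h3 : F ≤ fixedField F.fixingSubgroup.normalCore := (le_iff_le _ _).2 (normalCore_le _)
  have h2 : IsGalois ℚ (fixedField F.fixingSubgroup.normalCore) :=
    (InfiniteGalois.normal_iff_isGalois _).1 (by rw [hfix]; exact hKn)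
  refine mu_mono hp2 hR h1 h2 h3 ((cm_iff hp2 hR h1 h2).2 fun E hE hg => ?_)
  have hEd : FiniteDimensional ℚ E :=
    Submodule.finiteDimensional_of_le (S₁ := Subalgebra.toSubmodule E.toSubalgebra)
      (S₂ := Subalgebra.toSubmodule (fixedField F.fixingSubgroup.normalCore).toSubalgebra) hE
  rcases hg with hg | hg
  · exact h E hEd (Or.inl hg)
  · have hEn : NumberField E := NumberField.of_module_finite ℚ _
    rw [← realPlaces_eq hc] at hg
    obtain ⟨K, hEK, hKd, hK1, hK2⟩ := exists_two hc E (fun h0 => hg (by rw [h0]; exact dvd_zero p))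
    have hKn : NumberField K := NumberField.of_module_finite ℚ _
    rw [realPlaces_eq hc] at hK1 hK2
    exact mu_mono' hp2 hR hKd hEK (h K hKd (Or.inr (by omega)))

end tower

theorem explicit_involution (p : ℕ) [Fact p.Prime] (F N : IntermediateField ℚ Qb) (n : ℕ)
    (hG : GaloisOfDegree F N n) (t : ℕ) (ht : RamLe F N t) {c : Gal(Qb/ℚ)}
    (hcF : c ∈ F.fixingSubgroup) (hc : ∀ x ∈ N, c (c x) = x) (C : ℕ)
    (h1 : DegLe p (fixedPart c N) C) (h2 : DegLe p (centralPart F c N) C) :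
    DegLe p N ((n ^ (n ^ 3 + n * t + 2) * C) ^ (2 * n)) := by
  classical
  obtain ⟨hN, hFN, hNn, hn⟩ := hG
  have hfd : ∀ E : IntermediateField ℚ Qb, E ≤ N → FiniteDimensional ℚ E := fun E hE =>
    Submodule.finiteDimensional_of_le (S₁ := Subalgebra.toSubmodule E.toSubalgebra)
      (S₂ := Subalgebra.toSubmodule N.toSubalgebra) hE
  have hF := hfd F hFN
  have h3 := explicit p F N hF hN hFN hNn hn {fixedPart c N, centralPart F c N}
    (detecting hFN hcF hc) ht (C := C) (by
      intro E hE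
      rw [Finset.mem_insert, Finset.mem_singleton] at hE
      rcases hE with rfl | rfl
      · exact h1
      · exact h2)
  have hC : 0 < C := by
    have hfp : FiniteDimensional ℚ (fixedPart c N) := hfd _ inf_le_left
    have h4 := h1 (fixedPart c N) le_rfl hfp (fun σ hσ x hx => by
        rw [(IntermediateField.mem_fixingSubgroup_iff _ _).1 hσ x hx]
        exact hx)
      (fun σ hσ τ hτ x hx => by
        rw [(IntermediateField.mem_fixingSubgroup_iff _ _).1 hτ x hx,
          (IntermediateField.mem_fixingSubgroup_iff _ _).1 hσ x hx,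
          (IntermediateField.mem_fixingSubgroup_iff _ _).1 hτ x hx])
      (fun σ hσ x hx => (IntermediateField.mem_fixingSubgroup_iff _ _).1 (pow_mem hσ p) x hx)
      (fun A σ _ hσ x hx => (IntermediateField.mem_fixingSubgroup_iff _ _).1 hσ x hx)
    have h5 : 0 < finrank ℚ (fixedPart c N) := finrank_pos
    by_contra h6
    have h7 : C = 0 := by omega
    rw [h7, zero_mul] at h4
    omega
  have hn0 : 0 < n := by
    have h4 : 0 < finrank ℚ N := finrank_pos
    by_contra h6
    have h7 : n = 0 := by omega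
    rw [hn, h7, zero_mul] at h4
    omega
  have hc' : n ^ (n ^ 3 + n * t + 2) = cst n (n * t) := by
    unfold cst
    ring
  rw [hc']
  intro M m1 m2 m3 m4 m5 m6
  refine (h3 M m1 m2 m3 m4 m5 m6).trans (Nat.mul_le_mul_right _ ?_)
  refine Nat.pow_le_pow_right ?_ ?_
  · rw [← hc']
    positivity
  · rw [mul_comm 2 n]
    exact Nat.mul_le_mul_left _ Finset.card_le_two

theorem muFor_le {p : ℕ} {R : ℕ → IntermediateField ℚ Qb} {N : IntermediateField ℚ Qb}
    (hN : FiniteDimensional ℚ N) {P : IntermediateField ℚ Qb → Prop} :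
    (MuFor p R fun E => E ≤ N ∧ P E) ↔ ∀ E ≤ N, P E → MuZero p R E :=
  ⟨fun h E hE hP => h E (Submodule.finiteDimensional_of_le
      (S₁ := Subalgebra.toSubmodule E.toSubalgebra)
      (S₂ := Subalgebra.toSubmodule N.toSubalgebra) hE) ⟨hE, hP⟩,
    fun h E _ hE => h E hE.1 hE.2⟩

end Pool.Agent.K4H1.IM
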