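import Pool.Agent.K4H1.IM.Red2
import Pool.Agent.K4H55.WA

/-!
# Fields with a real place are contained in fields with one or two real places
-/

set_option autoImplicit false

namespace Pool.Agent.K4H1.IM

open Subgroup Module IntermediateField Pool.Agent.Q60.MU NumberField Polynomial
open scoped Pointwise

theorem fix_adjoin {s : Set Qb} {σ : Gal(Qb/ℚ)} (h : ∀ x ∈ s, σ x = x) :
    ∀ x ∈ adjoin ℚ s, σ x = x := by
  have h2 : adjoin ℚ s ≤ fixedField (zpowers σ) := by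
    rw [adjoin_le_iff]
    intro x hx
    rw [SetLike.mem_coe, mem_fixedField_iff]
    intro τ hτ
    have h3 : zpowers σ ≤ MulAction.stabilizer Gal(Qb/ℚ) x := by
      rw [zpowers_le]
      exact h x hx
    exact h3 hτ
  exact fun x hx => (mem_fixedField_iff _ _).1 (h2 hx) σ (mem_zpowers σ)

theorem real_of_fix {φ : Qb →+* ℂ} {c : Gal(Qb/ℚ)} (hc : IsConjOf φ c) {y : Qb} (h : c y = y) :
    φ y = (((φ y).re : ℝ) : ℂ) := by
  have h1 : (starRingEnd ℂ) (φ y) = φ y := by rw [← hc, h]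
  exact (Complex.conj_eq_iff_real.1 h1).elim fun r hr => by rw [hr, Complex.ofReal_re]

theorem map_aeval (φ : Qb →+* ℂ) (q : ℚ[X]) (y : Qb) : φ (aeval y q) = aeval (φ y) q := by
  have := Polynomial.aeval_algHom_apply φ.toRatAlgHom y q
  exact this.symm

theorem aeval_real (q : ℚ[X]) (r : ℝ) : aeval (r : ℂ) q = ((aeval r q : ℝ) : ℂ) := by
  have := Polynomial.aeval_algebraMap_apply ℂ r q
  exact this

theorem exists_two {φ : Qb →+* ℂ} {c : Gal(Qb/ℚ)} (hc : IsConjOf φ c)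
    (F : IntermediateField ℚ Qb) [FiniteDimensional ℚ F] (hF : embFix (zpowers c) F ≠ 0) :
    ∃ K : IntermediateField ℚ Qb, F ≤ K ∧ FiniteDimensional ℚ K ∧
      0 < embFix (zpowers c) K ∧ embFix (zpowers c) K ≤ 2 := by
  classical
  obtain ⟨θ, hθ⟩ := Pool.Agent.K4H55.WA.primitive F inferInstance inferInstance
  have hne : Nonempty {ψ : F →ₐ[ℚ] Qb // ∀ d ∈ zpowers c, ∀ x, d (ψ x) = ψ x} := by
    by_contra h
    rw [not_nonempty_iff] at h
    exact hF (by rw [embFix]; exact Nat.card_of_isEmpty)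
  obtain ⟨ψ₁, hψ₁⟩ := hne
  obtain ⟨g₁, hg₁⟩ := exists_ext F ψ₁
  have hθF : θ ∈ F := by
    rw [← hθ]
    exact mem_adjoin_simple_self ℚ θ
  have hcθ : c (g₁ θ) = g₁ θ := by
    have h1 := hψ₁ c (mem_zpowers c) ⟨θ, hθF⟩
    rw [hg₁] at h1
    exact h1
  obtain ⟨r₁, hr₁⟩ : ∃ r₁ : ℝ, φ (g₁ θ) = (r₁ : ℂ) := ⟨_, real_of_fix hc hcθ⟩
  have hint : ∀ x : Qb, IsIntegral ℚ x := fun x => (isAlg_Qb.isAlgebraic x).isIntegral
  have hmem : ∀ (g : Gal(Qb/ℚ)) (r : ℝ), φ (g θ) = (r : ℂ) → r ∈ (minpoly ℚ θ).rootSet ℝ := by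
    intro g r hr
    rw [Polynomial.mem_rootSet]
    refine ⟨minpoly.ne_zero (hint θ), ?_⟩
    have h1 : aeval (g θ) (minpoly ℚ θ) = 0 := by
      have h2 := Polynomial.aeval_algHom_apply g.toAlgHom θ (minpoly ℚ θ)
      rw [minpoly.aeval, map_zero] at h2
      exact h2
    have h2 := map_aeval φ (minpoly ℚ θ) (g θ)
    rw [h1, map_zero, hr, aeval_real] at h2
    exact_mod_cast h2.symm
  obtain ⟨q, hq⟩ := Pool.Agent.K4H55.WA.signs ((minpoly ℚ θ).rootSet ℝ)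
    (Polynomial.rootSet_finite _ _) ((minpoly ℚ θ).rootSet ℝ \ {r₁}) Set.sdiff_subset
  obtain ⟨β, hβ⟩ := IsAlgClosed.exists_eq_mul_self (aeval θ q)
  have hgα : ∀ g : Gal(Qb/ℚ), g β * g β = aeval (g θ) q := by
    intro g
    rw [← map_mul, ← hβ]
    exact (Polynomial.aeval_algHom_apply g.toAlgHom θ q).symm
  have hpos : 0 < aeval r₁ q := (hq r₁ (hmem g₁ r₁ hr₁)).2 fun h => h.2 rfl
  have hFK : F ≤ adjoin ℚ {θ, β} := by
    rw [← hθ]
    exact adjoin.mono _ _ _ (by simp)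
  have hfd : FiniteDimensional ℚ (adjoin ℚ {θ, β}) := by
    have : Finite ({θ, β} : Set Qb) := Set.toFinite _
    exact finiteDimensional_adjoin fun x _ => hint x
  have hθK : θ ∈ adjoin ℚ {θ, β} := subset_adjoin _ _ (by simp)
  have hβK : β ∈ adjoin ℚ {θ, β} := subset_adjoin _ _ (by simp)
  refine ⟨adjoin ℚ {θ, β}, hFK, hfd, ?_, ?_⟩
  · -- existence
    have h1 : c (g₁ β) = g₁ β := by
      apply φ.injective
      rw [hc]
      refine Pool.Agent.K4H55.WA.conj_of_pos _ (aeval r₁ q) hpos ?_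
      rw [← map_mul, hgα, map_aeval, hr₁, aeval_real]
    have h2 : ∀ x ∈ adjoin ℚ {θ, β}, (g₁⁻¹ * c * g₁) x = x := by
      refine fix_adjoin ?_
      rintro x (rfl | rfl)
      · rw [AlgEquiv.mul_apply, AlgEquiv.mul_apply, hcθ, ← AlgEquiv.mul_apply, inv_mul_cancel,
          AlgEquiv.one_apply]
      · rw [AlgEquiv.mul_apply, AlgEquiv.mul_apply, h1, ← AlgEquiv.mul_apply, inv_mul_cancel,
          AlgEquiv.one_apply]
    have h3 : ∀ x ∈ adjoin ℚ {θ, β}, c (g₁ x) = g₁ x := by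
      intro x hx
      have h4 := congrArg g₁ (h2 x hx)
      rw [← AlgEquiv.mul_apply] at h4
      have h5 : g₁ * (g₁⁻¹ * c * g₁) = c * g₁ := by group
      rw [h5] at h4
      exact h4
    rw [embFix]
    have hne : Nonempty {ψ : adjoin ℚ {θ, β} →ₐ[ℚ] Qb //
        ∀ d ∈ zpowers c, ∀ x, d (ψ x) = ψ x} := by
      refine ⟨⟨g₁.toAlgHom.comp (adjoin ℚ {θ, β}).val, fun d hd x => ?_⟩⟩
      have h4 : zpowers c ≤ MulAction.stabilizer Gal(Qb/ℚ) (g₁ x) := by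
        rw [zpowers_le]
        exact h3 x x.2
      exact h4 hd
    exact Nat.card_pos
  · -- at most two
    have hkey : ∀ ψ : adjoin ℚ {θ, β} →ₐ[ℚ] Qb, (∀ d ∈ zpowers c, ∀ x, d (ψ x) = ψ x) →
        ψ ⟨θ, hθK⟩ = g₁ θ ∧ (ψ ⟨β, hβK⟩ = g₁ β ∨ ψ ⟨β, hβK⟩ = -g₁ β) := by
      intro ψ hψ
      obtain ⟨g, hg⟩ := exists_ext _ ψ
      have h1 : c (g θ) = g θ := by
        have h2 := hψ c (mem_zpowers c) ⟨θ, hθK⟩
        rw [hg] at h2
        exact h2
      have h2 : c (g β) = g β := by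
        have h2 := hψ c (mem_zpowers c) ⟨β, hβK⟩
        rw [hg] at h2
        exact h2
      obtain ⟨r, hr⟩ : ∃ r : ℝ, φ (g θ) = (r : ℂ) := ⟨_, real_of_fix hc h1⟩
      obtain ⟨s, hs⟩ : ∃ s : ℝ, φ (g β) = (s : ℂ) := ⟨_, real_of_fix hc h2⟩
      have h3 : s * s = aeval r q := by
        have h4 := congrArg φ (hgα g)
        rw [map_mul, map_aeval, hs, hr, aeval_real] at h4
        exact_mod_cast h4
      have h4 : r = r₁ := by
        by_contra h5
        have h6 := (hq r (hmem g r hr)).1 ⟨hmem g r hr, h5⟩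
        rw [← h3] at h6
        exact absurd (mul_self_nonneg s) (not_le.2 h6)
      have h5 : g θ = g₁ θ := φ.injective (by rw [hr, hr₁, h4])
      rw [hg, hg]
      refine ⟨h5, ?_⟩
      have h6 : g β * g β = g₁ β * g₁ β := by rw [hgα, hgα, h5]
      exact mul_self_eq_mul_self_iff.1 h6
    rw [embFix]
    have h2 : Nat.card Bool = 2 := by simp
    rw [← h2]
    refine Nat.card_le_card_of_injective
      (fun ψ : {ψ : adjoin ℚ {θ, β} →ₐ[ℚ] Qb // ∀ d ∈ zpowers c, ∀ x, d (ψ x) = ψ x} =>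
        decide (ψ.1 ⟨β, hβK⟩ = g₁ β)) ?_
    intro ψ ψ' h
    apply Subtype.ext
    have h3 := hkey ψ.1 ψ.2
    have h4 := hkey ψ'.1 ψ'.2
    have h5 : ψ.1 ⟨β, hβK⟩ = ψ'.1 ⟨β, hβK⟩ := by
      by_cases h6 : ψ.1 ⟨β, hβK⟩ = g₁ β
      · have h7 : decide (ψ.1 ⟨β, hβK⟩ = g₁ β) = true := decide_eq_true h6
        rw [show decide (ψ.1 ⟨β, hβK⟩ = g₁ β) = decide (ψ'.1 ⟨β, hβK⟩ = g₁ β) from h] at h7
        rw [h6, of_decide_eq_true h7]
      · have h7 : decide (ψ.1 ⟨β, hβK⟩ = g₁ β) = false := decide_eq_false h6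
        rw [show decide (ψ.1 ⟨β, hβK⟩ = g₁ β) = decide (ψ'.1 ⟨β, hβK⟩ = g₁ β) from h] at h7
        rw [h3.2.resolve_left h6, h4.2.resolve_left (of_decide_eq_false h7)]
    refine algHom_ext_of_eq_adjoin ℚ rfl ?_
    rintro x (rfl | rfl)
    · exact h3.1.trans h4.1.symm
    · exact h5

end Pool.Agent.K4H1.IM
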